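import Mathlib

set_option autoImplicit false

open Set Filter Topology

universe u

namespace Pool.Agent.Helper70.LP

/-- a continuous map between topological spaces -/
structure Mp : Type (u + 1) where
  A : Type u
  B : Type u
  [tA : TopologicalSpace A]
  [tB : TopologicalSpace B]
  f : A → B
  cont : Continuous f

attribute [instance] Mp.tA Mp.tB

/-- `i` has the left lifting property against `p` -/
def Lifts (i p : Mp.{u}) : Prop :=
  ∀ (u : i.A → p.A) (v : i.B → p.B), Continuous u → Continuous v →
    (∀ a, p.f (u a) = v (i.f a)) →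
    ∃ h : i.B → p.A, Continuous h ∧ (∀ a, h (i.f a) = u a) ∧ ∀ b, p.f (h b) = v b

/-- left negation -/
def l (P : Set Mp.{u}) : Set Mp.{u} := {i | ∀ p ∈ P, Lifts i p}

/-- right negation -/
def r (P : Set Mp.{u}) : Set Mp.{u} := {p | ∀ i ∈ P, Lifts i p}

theorem subset_l_iff {P Q : Set Mp.{u}} : P ⊆ l Q ↔ Q ⊆ r P :=
  ⟨fun h q hq i hi => h hi q hq, fun h i hi q hq => h hq i hi⟩

theorem subset_lr (P : Set Mp.{u}) : P ⊆ l (r P) := subset_l_iff.2 Subset.rfl

theorem subset_rl (P : Set Mp.{u}) : P ⊆ r (l P) := subset_l_iff.1 Subset.rfl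

theorem l_anti {P Q : Set Mp.{u}} (h : P ⊆ Q) : l Q ⊆ l P := fun _ hi p hp => hi p (h hp)

theorem r_anti {P Q : Set Mp.{u}} (h : P ⊆ Q) : r Q ⊆ r P := fun _ hi p hp => hi p (h hp)

theorem lrl (P : Set Mp.{u}) : l (r (l P)) = l P :=
  Subset.antisymm (l_anti (subset_rl P)) (subset_lr (l P))

theorem rlr (P : Set Mp.{u}) : r (l (r P)) = r P :=
  Subset.antisymm (r_anti (subset_lr P)) (subset_rl (r P))

/-- bundle a continuous function -/
def mp {A B : Type u} [TopologicalSpace A] [TopologicalSpace B] (f : A → B) (hf : Continuous f) :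
    Mp.{u} := ⟨A, B, f, hf⟩

/-- basic classes -/
def Inj : Set Mp.{u} := {i | Function.Injective i.f}
def Surj : Set Mp.{u} := {i | Function.Surjective i.f}
def Init : Set Mp.{u} := {i | ∀ O : Set i.A, IsOpen O → ∃ O' : Set i.B, IsOpen O' ∧ i.f ⁻¹' O' = O}
def Final : Set Mp.{u} := {i | ∀ T : Set i.B, IsOpen (i.f ⁻¹' T) → IsOpen T}
def Iso : Set Mp.{u} := Inj ∩ Surj ∩ Init
def Quot' : Set Mp.{u} := Surj ∩ Final
def AD : Set Mp.{u} := Inj ∩ Final
def SI : Set Mp.{u} := Surj ∩ Init
def Bij : Set Mp.{u} := Inj ∩ Surj

/-- the two point type -/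
inductive Two : Type u
  | o : Two
  | i : Two

/-- indiscrete two point space -/
inductive JJ : Type u
  | o : JJ
  | i : JJ

/-- Sierpinski space, `i` is the open point -/
inductive SS : Type u
  | o : SS
  | i : SS

instance : TopologicalSpace Two.{u} := ⊥
instance : DiscreteTopology Two.{u} := ⟨rfl⟩
instance : TopologicalSpace JJ.{u} := ⊤
instance : TopologicalSpace SS.{u} where
  IsOpen O := SS.o ∈ O → SS.i ∈ O
  isOpen_univ := fun _ => mem_univ _
  isOpen_inter := fun s t hs ht h => ⟨hs h.1, ht h.2⟩
  isOpen_sUnion := fun S hS h => by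
    obtain ⟨s, hs, ho⟩ := h
    exact ⟨s, hs, hS s hs ho⟩

theorem SS.isOpen_iff {O : Set SS.{u}} : IsOpen O ↔ (SS.o ∈ O → SS.i ∈ O) := Iff.rfl

theorem continuous_JJ {A : Type u} [TopologicalSpace A] (f : A → JJ.{u}) : Continuous f :=
  continuous_top

/-- a map into Sierpinski space given by an open set -/
noncomputable def chiS {A : Type u} (O : Set A) (a : A) : SS.{u} :=
  open Classical in if a ∈ O then SS.i else SS.o

theorem chiS_of_mem {A : Type u} {O : Set A} {a : A} (h : a ∈ O) : chiS O a = SS.i := by
  simp [chiS, h]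

theorem chiS_of_not_mem {A : Type u} {O : Set A} {a : A} (h : a ∉ O) : chiS O a = SS.o := by
  simp [chiS, h]

/-- a function with two values -/
noncomputable def ind {A G : Type*} (O : Set A) (x y : G) (a : A) : G :=
  open Classical in if a ∈ O then x else y

theorem ind_of_mem {A G : Type*} {O : Set A} {x y : G} {a : A} (h : a ∈ O) : ind O x y a = x := by
  simp [ind, h]

theorem ind_of_not_mem {A G : Type*} {O : Set A} {x y : G} {a : A} (h : a ∉ O) :
    ind O x y a = y := by
  simp [ind, h]

/-- two-valued functions on an open set are continuous if `x` specializes to `y` -/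
theorem continuous_ind {A G : Type*} [TopologicalSpace A] [TopologicalSpace G] {O : Set A}
    (hO : IsOpen O) {x y : G} (h : x ⤳ y) : Continuous (ind O x y) := by
  rw [continuous_def]
  intro W hW
  by_cases hy : y ∈ W
  · have hx : x ∈ W := h.mem_open hW hy
    have : ind O x y ⁻¹' W = univ := by
      apply eq_univ_of_forall
      intro a
      by_cases ha : a ∈ O
      · simp [ind_of_mem ha, hx]
      · simp [ind_of_not_mem ha, hy]
    rw [this]
    exact isOpen_univ
  · by_cases hx : x ∈ W
    · have : ind O x y ⁻¹' W = O := by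
        ext a
        by_cases ha : a ∈ O
        · simp [ind_of_mem ha, hx, ha]
        · simp [ind_of_not_mem ha, hy, ha]
      rw [this]
      exact hO
    · have : ind O x y ⁻¹' W = ∅ := by
        ext a
        by_cases ha : a ∈ O
        · simp [ind_of_mem ha, hx]
        · simp [ind_of_not_mem ha, hy]
      rw [this]
      exact isOpen_empty

/-- two-valued functions are continuous if the values are inseparable -/
theorem continuous_ind_insep {A G : Type*} [TopologicalSpace A] [TopologicalSpace G] (O : Set A)
    {x y : G} (h : Inseparable x y) : Continuous (ind O x y) := by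
  rw [continuous_def]
  intro W hW
  have hxy : x ∈ W ↔ y ∈ W := h.mem_open_iff hW
  by_cases hy : y ∈ W
  · have : ind O x y ⁻¹' W = univ := by
      apply eq_univ_of_forall
      intro a
      by_cases ha : a ∈ O
      · simp [ind_of_mem ha, hxy, hy]
      · simp [ind_of_not_mem ha, hy]
    rw [this]
    exact isOpen_univ
  · have : ind O x y ⁻¹' W = ∅ := by
      ext a
      by_cases ha : a ∈ O
      · simp [ind_of_mem ha, hxy, hy]
      · simp [ind_of_not_mem ha, hy]
    rw [this]
    exact isOpen_empty

/-- two-valued functions on a clopen set are continuous -/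
theorem continuous_ind_clopen {A G : Type*} [TopologicalSpace A] [TopologicalSpace G] {O : Set A}
    (hO : IsClopen O) (x y : G) : Continuous (ind O x y) := by
  classical
  have : ind O x y = fun a => if a ∈ O then x else y := by
    funext a
    simp [ind]
  rw [this]
  apply Continuous.if
  · intro a ha
    have : frontier {x | x ∈ O} = ∅ := hO.frontier_eq
    rw [this] at ha
    exact absurd ha (notMem_empty _)
  · exact continuous_const
  · exact continuous_const

end Pool.Agent.Helper70.LP
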