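import Pool.Agent.Helper70.LP.Right2

set_option autoImplicit false

open Set Filter Topology

universe u

namespace Pool.Agent.Helper70.LP

theorem surj_sub_den : (Surj : Set Mp.{u}) ⊆ Den := by
  intro k hk O _ hr
  apply eq_univ_of_forall
  intro d
  obtain ⟨c, rfl⟩ := hk d
  exact hr ⟨c, rfl⟩

theorem surj_sub_coden : (Surj : Set Mp.{u}) ⊆ CoDen := by
  intro k hk O _ hr
  apply eq_univ_of_forall
  intro d
  obtain ⟨c, rfl⟩ := hk d
  exact hr ⟨c, rfl⟩

theorem surj_sub_pi0 : (Surj : Set Mp.{u}) ⊆ Pi0 := by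
  intro k hk O _ hr
  apply eq_univ_of_forall
  intro d
  obtain ⟨c, rfl⟩ := hk d
  exact hr ⟨c, rfl⟩

theorem den_sub_pi0 : (Den : Set Mp.{u}) ⊆ Pi0 := fun _ hk O hO hr => hk O hO.1 hr

theorem coden_sub_pi0 : (CoDen : Set Mp.{u}) ⊆ Pi0 := fun _ hk O hO hr => hk O hO.2 hr

theorem fiveN_bounds {N : Set Mp.{u}} (h : N ∈ FiveN) : Surj ⊆ N ∧ N ⊆ Pi0 := by
  rcases h with rfl | rfl | rfl | rfl | rfl
  · exact ⟨Subset.rfl, surj_sub_pi0⟩
  · exact ⟨subset_inter surj_sub_den surj_sub_coden, inter_subset_left.trans den_sub_pi0⟩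
  · exact ⟨surj_sub_den, den_sub_pi0⟩
  · exact ⟨surj_sub_coden, coden_sub_pi0⟩
  · exact ⟨surj_sub_pi0, Subset.rfl⟩

theorem nm_bounds {P : Set Mp.{u}} (h : P ∈ NM) : Bij ⊆ P ∧ P ⊆ Pi0 := by
  rcases h with h | ⟨N, h, rfl⟩
  · obtain ⟨h1, h2⟩ := fiveN_bounds h
    exact ⟨inter_subset_right.trans h1, h2⟩
  · obtain ⟨h1, h2⟩ := fiveN_bounds h
    exact ⟨inter_subset_inter_right _ h1, inter_subset_right.trans h2⟩

theorem l_union (P Q : Set Mp.{u}) : l (P ∪ Q) = l P ∩ l Q := by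
  ext k
  constructor
  · intro h
    exact ⟨fun p hp => h p (Or.inl hp), fun p hp => h p (Or.inr hp)⟩
  · rintro ⟨h1, h2⟩ p (hp | hp)
    · exact h1 p hp
    · exact h2 p hp

theorem fiveN_left {N : Set Mp.{u}} (h : N ∈ FiveN) : ∃ R, N = l R := by
  rcases h with rfl | rfl | rfl | rfl | rfl
  · exact ⟨_, l_T2.symm⟩
  · refine ⟨{T3} ∪ {T4}, ?_⟩
    rw [l_union, l_T3, l_T4]
  · exact ⟨_, l_T3.symm⟩
  · exact ⟨_, l_T4.symm⟩
  · exact ⟨_, l_T5.symm⟩

theorem nm_left {P : Set Mp.{u}} (h : P ∈ NM) : ∃ R, P = l R := by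
  rcases h with h | ⟨N, h, rfl⟩
  · exact fiveN_left h
  · obtain ⟨R, rfl⟩ := fiveN_left h
    refine ⟨{T1} ∪ R, ?_⟩
    rw [l_union, l_T1]

theorem T2_dc : T2 ∈ (Den ∩ CoDen : Set Mp.{u}) := by
  constructor
  · intro O hO hr
    have hO' : IsClosed (X := JJ.{u}) O := hO
    rcases (TopologicalSpace.isOpen_top_iff _).1 hO'.isOpen_compl with h | h
    · exact compl_empty_iff.1 h
    · exfalso
      have h1 : (JJ.o : JJ.{u}) ∈ O := hr ⟨PUnit.unit, rfl⟩
      exact h.ge (mem_univ (JJ.o : JJ.{u})) h1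
  · intro O hO hr
    have hO' : IsOpen (X := JJ.{u}) O := hO
    rcases (TopologicalSpace.isOpen_top_iff _).1 hO' with h | h
    · exfalso
      have h1 : (JJ.o : JJ.{u}) ∈ O := hr ⟨PUnit.unit, rfl⟩
      rw [h] at h1
      exact h1
    · exact h

theorem fiveN_T2 {N : Set Mp.{u}} (h : N ∈ FiveN) : N ⊆ Surj ∨ T2 ∈ N := by
  rcases h with rfl | rfl | rfl | rfl | rfl
  · exact Or.inl Subset.rfl
  · exact Or.inr T2_dc
  · exact Or.inr T2_dc.1
  · exact Or.inr T2_dc.2
  · exact Or.inr (den_sub_pi0 T2_dc.1)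

theorem nm_T2 {P : Set Mp.{u}} (h : P ∈ NM) : P ⊆ Surj ∨ T2 ∈ P := by
  rcases h with h | ⟨N, h, rfl⟩
  · exact fiveN_T2 h
  · rcases fiveN_T2 h with h | h
    · exact Or.inl (inter_subset_right.trans h)
    · exact Or.inr ⟨T2_inj, h⟩

theorem l_nm_mem {P : Set Mp.{u}} (h : P ∈ NM) : l P ∈ Std := by
  have h2 := nm_T2 h
  obtain ⟨R, rfl⟩ := nm_left h
  apply lemA
  intro hS _ hT2
  rcases h2 with h2 | h2
  · exact absurd h2 hS
  · exact absurd h2 hT2

theorem surj_nm : (Surj : Set Mp.{u}) ∈ NM := Or.inl (Or.inl rfl)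

theorem bij_nm : (Bij : Set Mp.{u}) ∈ NM := Or.inr ⟨Surj, Or.inl rfl, rfl⟩

theorem nm_std {P : Set Mp.{u}} (h : P ∈ NM) : P ∈ Std :=
  Or.inl (Or.inl (Or.inl (Or.inr h)))

theorem rnm_std {P : Set Mp.{u}} (h : P ∈ NM) : r P ∈ Std :=
  Or.inl (Or.inl (Or.inr ⟨P, h, rfl⟩))

theorem rrnm_std {P : Set Mp.{u}} (h : P ∈ NM) : r (r P) ∈ Std :=
  Or.inl (Or.inr ⟨P, h, rfl⟩)

theorem lrrnm_std {P : Set Mp.{u}} (h : P ∈ NM) : l (r (r P)) ∈ Std :=
  Or.inr ⟨P, h, rfl⟩

theorem base_std {P : Set Mp.{u}} (h : P ∈ ({univ, Iso, Quot', Inj, AD, Final, SI, r SI, r {T8},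
    l (r {T8})} : Set (Set Mp.{u}))) : P ∈ Std :=
  Or.inl (Or.inl (Or.inl (Or.inl h)))

theorem std_l {P : Set Mp.{u}} (h : P ∈ Std) : l P ∈ Std := by
  rcases h with (((h | h) | ⟨P, h, rfl⟩) | ⟨P, h, rfl⟩) | ⟨P, h, rfl⟩
  · rcases h with rfl | rfl | rfl | rfl | rfl | rfl | rfl | rfl | rfl | rfl
    · rw [l_univ]
      exact base_std (by simp)
    · rw [l_Iso]
      exact base_std (by simp)
    · rw [← l_Inj]
      apply lemA
      intro h
      apply absurd _ h
      rw [l_Inj]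
      exact inter_subset_left
    · rw [l_Inj]
      exact base_std (by simp)
    · rw [← l_Surj]
      apply lemA
      intro _ _ _ _ _ p hp
      rw [l_Surj] at hp
      exact isOpen_range_of_final hp.2
    · rw [← l_Bij]
      apply lemA
      intro _ _ _ _ _ p hp
      rw [l_Bij] at hp
      exact isOpen_range_of_final hp
    · rw [lSI]
      exact base_std (by simp)
    · rw [lrSI]
      exact base_std (by simp)
    · exact base_std (by simp)
    · apply lemA
      intro h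
      apply absurd _ h
      rw [← l_T2]
      exact l_single (rT8_inj T2_inj)
  · exact l_nm_mem h
  · obtain ⟨R, rfl⟩ := nm_left h
    rw [lrl]
    exact nm_std h
  · exact lrrnm_std h
  · exact llrr_mem (nm_bounds h).2

theorem std_r {P : Set Mp.{u}} (h : P ∈ Std) : r P ∈ Std := by
  rcases h with (((h | h) | ⟨P, h, rfl⟩) | ⟨P, h, rfl⟩) | ⟨P, h, rfl⟩
  · rcases h with rfl | rfl | rfl | rfl | rfl | rfl | rfl | rfl | rfl | rfl
    · rw [r_univ]
      exact base_std (by simp)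
    · rw [r_Iso]
      exact base_std (by simp)
    · rw [r_Quot]
      exact base_std (by simp)
    · rw [rInj]
      exact base_std (by simp)
    · rw [r_AD]
      exact nm_std surj_nm
    · rw [r_Final]
      exact nm_std bij_nm
    · exact base_std (by simp)
    · rw [rrSI]
      exact base_std (by simp)
    · rw [rrT8]
      exact base_std (by simp)
    · rw [rlr]
      exact base_std (by simp)
  · exact rnm_std h
  · exact rrnm_std h
  · change r (r (r P)) ∈ Std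
    rw [rrr_eq (nm_bounds h).1 (nm_bounds h).2]
    exact base_std (by simp)
  · change r (l (r (r P))) ∈ Std
    rw [rlr]
    exact rrnm_std h

theorem finite_std : (Std : Set (Set Mp.{u})).Finite := by
  have h5 : (FiveN : Set (Set Mp.{u})).Finite := by
    unfold FiveN
    exact toFinite _
  have hNM : (NM : Set (Set Mp.{u})).Finite := h5.union (h5.image _)
  unfold Std
  exact ((((toFinite _).union hNM).union (hNM.image _)).union (hNM.image _)).union (hNM.image _)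

end Pool.Agent.Helper70.LP
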