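import Mathlib

set_option autoImplicit false

universe u

open CategoryTheory

namespace Pool.Agent.Helper70.LP

/-- One Quillen negation of a class of maps of topological spaces: `true` stands for the left
negation (all maps with the left lifting property against the class), `false` for the right
negation (all maps with the right lifting property against the class). -/
def neg : Bool → MorphismProperty TopCat.{u} → MorphismProperty TopCat.{u}
  | true, P => P.llp
  | false, P => P.rlp

/-- The class obtained from `P` by applying the negations of the word `w` one after the other,
the first letter first. -/
def iterNeg : List Bool → MorphismProperty TopCat.{u} → MorphismProperty TopCat.{u}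
  | [], P => P
  | b :: w, P => iterNeg w (neg b P)

/-- The orbit of a map `f`: all the classes obtained from the class `{f}` by words. -/
def orbit {X Y : TopCat.{u}} (f : X ⟶ Y) : Set (MorphismProperty TopCat.{u}) :=
  {Q | ∃ w : List Bool, Q = iterNeg w (MorphismProperty.single f)}

end Pool.Agent.Helper70.LP
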