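import Pool.Agent.Helper70.LP.SpaceT

set_option autoImplicit false

open Set Filter Topology

universe u

namespace Pool.Agent.Helper70.LP

/-- part (1) -/
theorem llf_mem (f : Mp.{u}) [Finite f.A] : l (l {f}) ∈ Std := by
  apply lemA
  intro _ _ h2 h3 h4 p hp
  have hcl : IsClosed (range p.f) := isClosed_range24 h2 h4 hp
  have hT3 : ¬ Lifts T3 f := by
    intro h
    apply h3
    rintro k rfl
    exact h
  rw [lifts_T3] at hT3
  push Not at hT3
  obtain ⟨g, h1, hsp, hno⟩ := hT3
  obtain ⟨s, hs, hs1, hs2⟩ := hp f rfl (fun _ => g) (ind (range p.f)ᶜ h1 (f.f g))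
    continuous_const (continuous_ind hcl.isOpen_compl hsp) (by
      intro c
      rw [ind_of_not_mem]
      exact not_not.2 (mem_range_self c))
  have hU : IsOpen {x : f.A | x ⤳ g} := by
    rw [isOpen_iff_forall_specializes]
    intro x y hxy hy
    exact hxy.trans hy
  have : range p.f = s ⁻¹' {x : f.A | x ⤳ g} := by
    ext d
    constructor
    · rintro ⟨c, rfl⟩
      rw [mem_preimage, hs1]
      exact specializes_refl g
    · intro hd
      by_contra hd'
      apply hno (s d) hd
      rw [hs2, ind_of_mem hd']
  rw [this]
  exact hU.preimage hs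

theorem continuous_decide {D : Type*} [TopologicalSpace D] {F : Set D} (h : IsClopen F) :
    Continuous (fun d => (open Classical in decide (d ∈ F) : Bool)) := by
  classical
  rw [continuous_bool_rng true]
  have : (fun d => (open Classical in decide (d ∈ F) : Bool)) ⁻¹' {true} = F := by
    ext d
    simp
  rw [this]
  exact h

theorem clopen_of_decide {D : Type*} [TopologicalSpace D] {F : Set D}
    (h : Continuous (fun d => (open Classical in decide (d ∈ F) : Bool))) : IsClopen F := by
  classical
  rw [continuous_bool_rng true] at h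
  have : (fun d => (open Classical in decide (d ∈ F) : Bool)) ⁻¹' {true} = F := by
    ext d
    simp
  rwa [this] at h

/-- part (2) -/
theorem llrf_mem (f : Mp.{u}) [Finite f.B] : l (l (r {f})) ∈ Std := by
  apply lemA
  intro _ _ h2 h3 h4 p hp
  have hcl : IsClosed (range p.f) := isClosed_range24 h2 h4 hp
  classical
  let ε : Wrap p.B → p.B × Bool := fun w => (w.val, decide (w.val ∈ range p.f))
  letI : TopologicalSpace (Wrap p.B) := TopologicalSpace.induced ε inferInstance
  have hε : Continuous ε := continuous_induced_dom
  have hc : Continuous (fun w : Wrap p.B => w.val) := continuous_fst.comp hε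
  have hγ : mp (fun w : Wrap p.B => w.val) hc ∈ r {f} := by
    rintro k rfl
    refine lifts_mp.2 ?_
    intro a b ha hb hab
    refine ⟨fun y => Wrap.mk (b y), ?_, ?_, fun _ => rfl⟩
    · rw [continuous_induced_rng]
      have hclopen : IsClopen (b ⁻¹' range p.f) := by
        refine ⟨hcl.preimage hb, ?_⟩
        rw [isOpen_iff_forall_specializes]
        intro y' y hsp hy
        by_contra hy'
        obtain ⟨O, hO, hr, hno⟩ := sep23 h2 h3 hp hy'
        exact hno ((hsp.map hb).mem_open hO (hr hy))
      exact hb.prodMk (continuous_decide hclopen)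
    · intro x
      change Wrap.mk (b (k.f x)) = a x
      rw [← hab x]
  have hpc : Continuous (fun c : p.A => (Wrap.mk (p.f c) : Wrap p.B)) := by
    rw [continuous_induced_rng]
    have : ε ∘ (fun c : p.A => (Wrap.mk (p.f c) : Wrap p.B)) = fun c => (p.f c, true) := by
      funext c
      simp [ε]
    rw [this]
    exact p.cont.prodMk continuous_const
  obtain ⟨s, hs, -, hs2⟩ := lifts_mp.1 (hp _ hγ) (fun c => Wrap.mk (p.f c)) id hpc continuous_id
    (fun _ => rfl)
  have h5 : Continuous (fun d => (ε (s d)).2) := continuous_snd.comp (hε.comp hs)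
  have h6 : (fun d => (ε (s d)).2) = fun d => decide (d ∈ range p.f) := by
    funext d
    have h7 : (s d).val = d := hs2 d
    simp only [ε, h7]
  rw [h6] at h5
  exact (clopen_of_decide h5).2

/-- `T1` spaces: maps from finite spaces -/
theorem TTd_mem_r (f : Mp.{u}) [Finite f.B] (H : Type u) [TopologicalSpace H] :
    TTd H ∈ r {f} := by
  rintro k rfl
  refine lifts_mp.2 ?_
  intro a b ha hb hab
  refine ⟨fun y => ⟨b y⟩, ?_, ?_, fun _ => rfl⟩
  · rw [continuous_def]
    intro O _
    rw [isOpen_iff_forall_specializes]
    intro y' y hsp hy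
    have h1 := TT_eq_of_spec (hsp.map hb)
    rw [mem_preimage, h1]
    exact hy
  · intro x
    change Dsc.mk (b (k.f x)) = a x
    rw [← hab x]

theorem rrf_init (f : Mp.{u}) [Finite f.B] : r (r {f}) ⊆ Init :=
  init_of_TT fun H _ => TTd_mem_r f H

/-- part (3) -/
theorem rrf_mem (f : Mp.{u}) [Finite f.B] : r (r {f}) ∈ Std := by
  have hI := rrf_init f
  by_cases hA : Nonempty f.A
  · obtain ⟨x0⟩ := hA
    have hT6 : T6 ∈ r {f} := by
      rintro k rfl
      refine lifts_mp.2 ?_
      intro a _ _ _ _
      exact (a x0).elim
    have hS : r (r {f}) ⊆ Surj := by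
      rw [← rT6]
      exact r_single hT6
    by_cases hJ : r {f} ⊆ Inj
    · have : r (r {f}) = SI := by
        apply Subset.antisymm (subset_inter hS hI)
        have h1 : (SI : Set Mp.{u}) = r Inj := rInj.symm
        change SI ⊆ _
        rw [h1]
        exact r_anti hJ
      rw [this]
      exact base_std (by simp)
    · have : r (r {f}) = Iso := by
        apply Subset.antisymm _ (iso_subset_r _)
        intro p hp
        exact si_inter_inj ⟨⟨hS hp, hI hp⟩, inj_of_noninj hJ hI hp⟩
      rw [this]
      exact base_std (by simp)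
  · by_cases hB : Nonempty f.B
    · obtain ⟨y0⟩ := hB
      have hT9 : T9 ∈ r {f} := by
        rintro k rfl
        refine lifts_mp.2 ?_
        intro a b _ _ _
        exact ⟨fun _ => Two.o, continuous_const, fun x => (hA ⟨x⟩).elim, fun _ => rfl⟩
      have hS : r {f} ⊆ Surj := by
        intro p hp h
        have h1 := hp f rfl (fun x => (hA ⟨x⟩).elim) (fun _ => h) (by
          rw [continuous_def]
          intro O _
          have : (fun x => (hA ⟨x⟩).elim : f.A → p.A) ⁻¹' O = ∅ :=
            eq_empty_of_forall_notMem fun x _ => hA ⟨x⟩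
          rw [this]
          exact isOpen_empty) continuous_const (fun x => (hA ⟨x⟩).elim)
        obtain ⟨s, -, -, hs⟩ := h1
        exact ⟨s y0, hs y0⟩
      have : r (r {f}) = r Surj := by
        apply Subset.antisymm
        · rw [rSurj]
          apply subset_inter _ hI
          rw [← rT9]
          exact r_single hT9
        · exact r_anti hS
      rw [this]
      exact rnm_std surj_nm
    · have : r {f} = univ := by
        apply eq_univ_of_forall
        rintro p k rfl
        intro a b _ hb _
        refine ⟨fun y => (hB ⟨y⟩).elim, ?_, fun x => (hA ⟨x⟩).elim, fun y => (hB ⟨y⟩).elim⟩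
        rw [continuous_def]
        intro O _
        have : (fun y => (hB ⟨y⟩).elim : k.B → p.A) ⁻¹' O = ∅ :=
          eq_empty_of_forall_notMem fun x _ => hB ⟨x⟩
        rw [this]
        exact isOpen_empty
      rw [this, r_univ]
      exact base_std (by simp)

end Pool.Agent.Helper70.LP
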