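import Pool.Agent.Helper70.LP.FinMap

set_option autoImplicit false

open Set Filter Topology

universe u

namespace Pool.Agent.Helper70.LP

theorem isClopen_two {A : Type*} [TopologicalSpace A] {a : A → Two.{u}} (ha : Continuous a)
    (x : Two.{u}) : IsClopen {c | a c = x} :=
  (isClopen_discrete ({x} : Set Two.{u})).preimage ha

theorem closed_of_T11 {k : Mp.{u}} (h : Lifts k T11) {O : Set k.B} (hO : IsOpen O)
    (hc : IsClosed (k.f ⁻¹' O)) : IsClosed O := by
  obtain ⟨s, hs, -, hs2⟩ := lifts_mp.1 h (ind (k.f ⁻¹' O) Two.i Two.o) (ind O SS.i SS.o)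
    (continuous_ind_clopen ⟨hc, hO.preimage k.cont⟩ _ _)
    (continuous_ind hO (continuous_SS_iff.1 continuous_id)) (by
      intro c
      by_cases h : k.f c ∈ O
      · rw [ind_of_mem h, ind_of_mem (mem_preimage.2 h)]
        rfl
      · rw [ind_of_not_mem h, ind_of_not_mem (fun h' => h (mem_preimage.1 h'))]
        rfl)
  have : O = {d | s d = Two.i} := by
    ext d
    have h1 := hs2 d
    rw [mem_ofPred_eq]
    by_cases hd : d ∈ O
    · rw [ind_of_mem hd] at h1
      generalize s d = z at h1
      cases z with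
      | o => cases h1
      | i => simp [hd]
    · rw [ind_of_not_mem hd] at h1
      generalize s d = z at h1
      cases z with
      | o => simp [hd]
      | i => cases h1
  rw [this]
  exact (isClopen_two hs _).1

theorem TTd_of_T11 {Z : Set Mp.{u}} (h : T11 ∈ r Z) (H : Type u) [TopologicalSpace H] :
    TTd H ∈ r Z := by
  intro k hk
  refine lifts_mp.2 ?_
  intro a b ha hb hab
  have hpt : ∀ t : TT H, IsOpen {d | b d = t} := by
    intro t
    cases t with
    | iso x d n => exact (TT_isOpen_iso x d n).preimage hb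
    | ctr x =>
      have hV : IsClosed (b ⁻¹' TTiso x) := by
        apply closed_of_T11 (h k hk) ((TT_isOpen_TTiso x).preimage hb)
        have : k.f ⁻¹' (b ⁻¹' TTiso x) = a ⁻¹' {t : Dsc (TT H) | t.val ∈ TTiso x} := by
          ext c
          rw [mem_preimage, mem_preimage, ← hab c]
          exact Iff.rfl
        rw [this]
        exact (isClosed_discrete _).preimage ha
      have h2 := ((TT_isOpen_star x).preimage hb).sdiff hV
      have : {d | b d = TT.ctr x} = b ⁻¹' insert (TT.ctr x) (TTiso x) \ b ⁻¹' TTiso x := by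
        ext d
        constructor
        · intro hd
          have hd' : b d = TT.ctr x := hd
          refine ⟨Or.inl hd', ?_⟩
          rintro ⟨d', n, hh⟩
          rw [hd'] at hh
          cases hh
        · rintro ⟨h3 | h3, h4⟩
          · exact h3
          · exact absurd h3 h4
      rw [this]
      exact h2
  refine ⟨fun d => ⟨b d⟩, ?_, ?_, fun _ => rfl⟩
  · rw [continuous_def]
    intro O _
    have : (fun d => (⟨b d⟩ : Dsc (TT H))) ⁻¹' O = ⋃ t ∈ O, {d | b d = t.val} := by
      ext d
      simp only [mem_preimage, mem_iUnion, mem_ofPred_eq]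
      constructor
      · intro h
        exact ⟨⟨b d⟩, h, rfl⟩
      · rintro ⟨⟨t⟩, h, h1⟩
        have h1' : b d = t := h1
        rw [h1']
        exact h
    rw [this]
    exact isOpen_biUnion fun t _ => hpt _
  · intro c
    change Dsc.mk (b (k.f c)) = a c
    rw [← hab c]

theorem T11_mem (f : Mp.{u}) [Finite f.A] (hs : f ∈ Surj) {y y' : f.B} (hsp : y' ⤳ y)
    (hno : ∀ x x', f.f x = y → f.f x' = y' → ¬ x' ⤳ x) : T11 ∈ r (l {f}) := by
  intro k hk
  refine lifts_mp.2 ?_
  intro a b ha hb hab
  have hO := isOpen_eq_i hb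
  obtain ⟨x0, hx0⟩ := hs y
  obtain ⟨x1, hx1⟩ := hs y'
  have hiff : ∀ c, a c = Two.i ↔ b (k.f c) = SS.i := by
    intro c
    rw [← hab c]
    generalize a c = z
    cases z with
    | o =>
      constructor
      · intro h
        cases h
      · intro h
        cases h
    | i => exact ⟨fun _ => rfl, fun _ => rfl⟩
  obtain ⟨s, hsc, -, hs2⟩ := hk f rfl (ind {c | a c = Two.i} x1 x0) (ind {d | b d = SS.i} y' y)
    (continuous_ind_clopen (isClopen_two ha _) _ _) (continuous_ind hO hsp) (by
      intro c
      by_cases h : a c = Two.i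
      · have h1 : c ∈ {c | a c = Two.i} := h
        have h2 : k.f c ∈ {d | b d = SS.i} := (hiff c).1 h
        rw [ind_of_mem h1, ind_of_mem h2, hx1]
      · have h1 : c ∉ {c | a c = Two.i} := h
        have h2 : k.f c ∉ {d | b d = SS.i} := fun h' => h ((hiff c).2 h')
        rw [ind_of_not_mem h1, ind_of_not_mem h2, hx0])
  have hU : IsOpen {x : f.A | ∃ x', f.f x' = y ∧ x ⤳ x'} := by
    rw [isOpen_iff_forall_specializes]
    rintro x z hxz ⟨x', hx', hzx⟩
    exact ⟨x', hx', hxz.trans hzx⟩
  have hcompl : {d | b d = SS.i}ᶜ = s ⁻¹' {x : f.A | ∃ x', f.f x' = y ∧ x ⤳ x'} := by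
    ext d
    by_cases hd : d ∈ {d | b d = SS.i}
    · constructor
      · intro h
        exact absurd hd h
      · rintro ⟨x', hx', h⟩
        exfalso
        apply hno x' (s d) hx' _ h
        rw [hs2, ind_of_mem hd]
    · constructor
      · intro _
        refine ⟨s d, ?_, specializes_refl _⟩
        rw [hs2, ind_of_not_mem hd]
      · intro _
        exact hd
  have hclopen : IsClopen {d | b d = SS.i} := by
    refine ⟨?_, hO⟩
    rw [← isOpen_compl_iff, hcompl]
    exact hU.preimage hsc
  refine ⟨ind {d | b d = SS.i} Two.i Two.o, continuous_ind_clopen hclopen _ _, ?_, ?_⟩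
  · intro c
    by_cases h : a c = Two.i
    · have h2 : k.f c ∈ {d | b d = SS.i} := (hiff c).1 h
      rw [ind_of_mem h2, h]
    · have h2 : k.f c ∉ {d | b d = SS.i} := fun h' => h ((hiff c).2 h')
      rw [ind_of_not_mem h2]
      generalize a c = z at h
      cases z with
      | o => rfl
      | i => exact absurd rfl h
  · intro d
    by_cases h : d ∈ {d | b d = SS.i}
    · rw [ind_of_mem h]
      exact (mem_ofPred_eq.mp h).symm
    · rw [ind_of_not_mem h]
      have h' : ¬ b d = SS.i := h
      generalize b d = z at h'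
      cases z with
      | o => rfl
      | i => exact absurd rfl h'

end Pool.Agent.Helper70.LP
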