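import Pool.Agent.Helper70.LP.FinMap2

set_option autoImplicit false

open Set Filter Topology

universe u

namespace Pool.Agent.Helper70.LP

/-- the space of an ultrafilter -/
inductive UU {H : Type u} (F : Ultrafilter H) : Type u
  | inf : UU F
  | pt : H → UU F

instance {H : Type u} (F : Ultrafilter H) : TopologicalSpace (UU F) where
  IsOpen O := UU.inf ∈ O → {h : H | UU.pt h ∈ O} ∈ F
  isOpen_univ := by
    intro _
    have : {h : H | (UU.pt h : UU F) ∈ (univ : Set (UU F))} = univ :=
      eq_univ_of_forall fun h => mem_univ _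
    rw [this]
    exact univ_mem
  isOpen_inter := by
    intro O O' h h' hx
    exact inter_mem (h hx.1) (h' hx.2)
  isOpen_sUnion := by
    rintro S hS ⟨O, hO, hx⟩
    exact mem_of_superset (hS O hO hx) fun h hh => ⟨O, hO, hh⟩

theorem UU_isOpen_iff {H : Type u} {F : Ultrafilter H} {O : Set (UU F)} :
    IsOpen O ↔ (UU.inf ∈ O → {h : H | UU.pt h ∈ O} ∈ F) := Iff.rfl

theorem UU_mem (f : Mp.{u}) [Finite f.B] (hs : f ∈ Surj)
    (hl : ∀ y y' : f.B, y' ⤳ y → ∃ x x', f.f x = y ∧ f.f x' = y' ∧ x' ⤳ x)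
    {H : Type u} (F : Ultrafilter H) : fromE (UU F) ∈ l {f} := by
  rintro k rfl
  refine lifts_mpl.2 ?_
  intro a b ha hb hab
  have hs' : ∀ y : k.B, ∃ x, k.f x = y := hs
  choose σ hσ using hs'
  -- the eventual value
  have hev : ∃ y' : k.B, {h : H | b (UU.pt h) = y'} ∈ F := by
    have h1 : (⋃ y' ∈ (univ : Set k.B), {h : H | b (UU.pt h) = y'}) ∈ F := by
      have : (⋃ y' ∈ (univ : Set k.B), {h : H | b (UU.pt h) = y'}) = univ :=
        eq_univ_of_forall fun h => mem_iUnion₂.2 ⟨b (UU.pt h), mem_univ _, rfl⟩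
      rw [this]
      exact univ_mem
    obtain ⟨y', -, hy'⟩ := (Ultrafilter.finite_biUnion_mem_iff (finite_univ)).1 h1
    exact ⟨y', hy'⟩
  obtain ⟨y', hy'⟩ := hev
  have hsp : y' ⤳ b UU.inf := by
    rw [specializes_iff_forall_open]
    intro O hO hin
    have h1 := UU_isOpen_iff.1 (hO.preimage hb) hin
    obtain ⟨h, h2, h3⟩ := F.nonempty_of_mem (inter_mem h1 hy')
    have h3' : b (UU.pt h) = y' := h3
    rw [← h3']
    exact h2
  obtain ⟨x, x', hx, hx', hxx⟩ := hl _ _ hsp
  classical
  refine ⟨fun t => match t with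
    | .inf => x
    | .pt h => if b (UU.pt h) = y' then x' else σ (b (UU.pt h)), ?_, fun x => x.elim, ?_⟩
  · rw [continuous_def]
    intro O hO
    rw [UU_isOpen_iff]
    intro hin
    apply mem_of_superset hy'
    intro h hh
    have hh' : b (UU.pt h) = y' := hh
    have h4 : x' ∈ O := hxx.mem_open hO hin
    change (if b (UU.pt h) = y' then x' else σ (b (UU.pt h))) ∈ O
    rw [if_pos hh']
    exact h4
  · intro t
    cases t with
    | inf => exact hx
    | pt h =>
      change k.f (if b (UU.pt h) = y' then x' else σ (b (UU.pt h))) = b (UU.pt h)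
      by_cases hh : b (UU.pt h) = y'
      · rw [if_pos hh, hx', hh]
      · rw [if_neg hh, hσ]

theorem rlf_quot (f : Mp.{u}) [Finite f.B] (hs : f ∈ Surj)
    (hl : ∀ y y' : f.B, y' ⤳ y → ∃ x x', f.f x = y ∧ f.f x' = y' ∧ x' ⤳ x) :
    r (l {f}) ⊆ Quot' := by
  have hT6 : T6 ∈ l {f} := by
    rintro k rfl
    exact lifts_T6.2 hs
  intro p hp
  constructor
  · have : p ∈ r {T6} := r_single hT6 hp
    rw [rT6] at this
    exact this
  · intro T hT
    rw [isOpen_iff_ultrafilter]
    intro x hx F hF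
    let v : UU F → p.B := fun t => match t with
      | .inf => x
      | .pt h => h
    have hv : Continuous v := by
      rw [continuous_def]
      intro O hO
      rw [UU_isOpen_iff]
      intro hin
      exact hF (hO.mem_nhds hin)
    obtain ⟨s, hsc, -, hs2⟩ := lifts_mpl.1 (hp _ (UU_mem f hs hl F)) (fun x => x.elim) v
      (by fun_prop) hv (fun x => x.elim)
    have h1 := UU_isOpen_iff.1 (hT.preimage hsc) (by
      rw [mem_preimage, mem_preimage, hs2]
      exact hx)
    apply mem_of_superset h1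
    intro h hh
    have hh' : p.f (s (UU.pt h)) ∈ T := hh
    rw [hs2] at hh'
    exact hh'

end Pool.Agent.Helper70.LP
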