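import Pool.Agent.Helper70.LP.FinMap3

set_option autoImplicit false

open Set Filter Topology

universe u

namespace Pool.Agent.Helper70.LP

theorem self_mem_rl (f : Mp.{u}) : f ∈ r (l {f}) := subset_rl {f} rfl

theorem rl_surj {f : Mp.{u}} (hs : f ∈ Surj) : r (l {f}) ⊆ Surj := by
  have hT6 : T6 ∈ l {f} := by
    rintro k rfl
    exact lifts_T6.2 hs
  rw [← rT6]
  exact r_single hT6

theorem rl_inj {f : Mp.{u}} (hs : f ∈ Inj) : r (l {f}) ⊆ Inj := by
  have hT9 : T9 ∈ l {f} := by
    rintro k rfl
    exact lifts_T9.2 hs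
  rw [← rT9]
  exact r_single hT9

/-- surjective maps, the double left negation -/
theorem caseA_ll {f : Mp.{u}} (hs : f ∈ Surj) : l (l (r (r (l {f})))) ∈ Std := by
  apply lemA
  intro h
  apply absurd _ h
  have hT2 : T2 ∈ r (r (l {f})) := by
    intro i hi
    have h1 := rl_surj hs hi
    rw [← l_T2] at h1
    exact h1 _ rfl
  rw [← l_T2]
  exact l_single hT2

/-- surjective maps with a specialization that does not lift -/
theorem caseA1 (f : Mp.{u}) [Finite f.A] (hs : f ∈ Surj) {y y' : f.B} (hsp : y' ⤳ y)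
    (hno : ∀ x x', f.f x = y → f.f x' = y' → ¬ x' ⤳ x) : r (r (l {f})) ∈ Std := by
  have hI : r (r (l {f})) ⊆ Init :=
    init_of_TT fun H _ => TTd_of_T11 (T11_mem f hs hsp hno) H
  by_cases hJ : f ∈ Inj
  · have : r (r (l {f})) = r Bij := by
      apply Subset.antisymm
      · rw [rBij]
        exact hI
      · exact r_anti (subset_inter (rl_inj hJ) (rl_surj hs))
    rw [this]
    exact rnm_std bij_nm
  · have : r (r (l {f})) = r Surj := by
      apply Subset.antisymm
      · rw [rSurj]
        apply subset_inter _ hI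
        exact inj_of_noninj (fun h => hJ (h (self_mem_rl f))) hI
      · exact r_anti (rl_surj hs)
    rw [this]
    exact rnm_std surj_nm

/-- classes containing all injective maps -/
theorem r_mem_of_inj {Z : Set Mp.{u}} (h : Inj ⊆ Z) : r Z ∈ Std := by
  have h1 : r Z ⊆ SI := by
    rw [← rInj]
    exact r_anti h
  by_cases hJ : Z ⊆ Inj
  · have : Z = Inj := Subset.antisymm hJ h
    rw [this, rInj]
    exact base_std (by simp)
  · have : r Z = Iso := by
      apply Subset.antisymm _ (iso_subset_r _)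
      intro p hp
      exact si_inter_inj ⟨h1 hp, inj_of_noninj hJ (h1.trans inter_subset_right) hp⟩
    rw [this]
    exact base_std (by simp)

theorem caseA_r (f : Mp.{u}) [Finite f.A] [Finite f.B] (hs : f ∈ Surj) :
    r (r (r (l {f}))) ∈ Std := by
  by_cases hl : ∀ y y' : f.B, y' ⤳ y → ∃ x x', f.f x = y ∧ f.f x' = y' ∧ x' ⤳ x
  · apply r_mem_of_inj
    rw [← r_Quot]
    exact r_anti (rlf_quot f hs hl)
  · push Not at hl
    obtain ⟨y, y', hsp, hno⟩ := hl
    exact std_r (caseA1 f hs hsp hno)

/-- split surjections -/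
def Split : Set Mp.{u} := {q | ∃ σ : q.B → q.A, Continuous σ ∧ ∀ h, q.f (σ h) = h}

theorem rSplit : r (Split : Set Mp.{u}) = Inj := by
  apply Subset.antisymm
  · rw [← rT9]
    exact r_single ⟨fun _ => Two.o, continuous_const, fun _ => rfl⟩
  · rintro p hp q ⟨σ, hσ, hσ2⟩ a b ha hb hab
    have hp' : Function.Injective p.f := hp
    refine ⟨fun h => a (σ h), ha.comp hσ, ?_, ?_⟩
    · intro g
      apply hp'
      change p.f (a (σ (q.f g))) = _
      rw [hab, hab, hσ2]
    · intro h
      change p.f (a (σ h)) = b h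
      rw [hab, hσ2]

theorem clopen_of_split {p : Mp.{u}} (hp : p ∈ l Split) : IsClopen (range p.f) := by
  let q : Mp.{u} := mp (Sum.elim p.f id : p.A ⊕ p.B → p.B) (p.cont.sumElim continuous_id)
  have hq : q ∈ Split := ⟨Sum.inr, continuous_inr, fun _ => rfl⟩
  obtain ⟨s, hs, hs1, hs2⟩ := lifts_mp.1 (hp q hq) Sum.inl id continuous_inl continuous_id
    (fun _ => rfl)
  have : range p.f = s ⁻¹' range Sum.inl := by
    ext d
    constructor
    · rintro ⟨c, rfl⟩
      exact ⟨c, (hs1 c).symm⟩
    · rintro ⟨c, hc⟩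
      have h1 := hs2 d
      rw [← hc] at h1
      exact ⟨c, h1⟩
  rw [this]
  exact isClopen_range_inl.preimage hs

theorem llSplit : l (l (Split : Set Mp.{u})) ∈ Std := by
  -- `Split` is a right negation, but only this instance is needed
  apply lemA
  intro _ _ _ _ _ p hp
  exact (clopen_of_split hp).2

end Pool.Agent.Helper70.LP
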