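import Pool.Agent.Helper70.LP.FinMap4

set_option autoImplicit false

open Set Filter Topology

universe u

namespace Pool.Agent.Helper70.LP

theorem cont_of_isEmpty {A B : Type*} [TopologicalSpace A] [TopologicalSpace B] (h : A → False)
    (f : A → B) : Continuous f := by
  rw [continuous_def]
  intro O _
  have : f ⁻¹' O = ∅ := eq_empty_of_forall_notMem fun x _ => h x
  rw [this]
  exact isOpen_empty

/-- maps whose domain is nonempty or whose codomain is empty lift against `f` -/
theorem mem_l_of_empty {f : Mp.{u}} (hA : f.A → False) {k : Mp.{u}} (hk : Nonempty k.A) :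
    k ∈ l {f} := by
  rintro p rfl a b _ _ _
  obtain ⟨c⟩ := hk
  exact (hA (a c)).elim

theorem rl_empty {f : Mp.{u}} (hA : f.A → False) {p : Mp.{u}} (hp : p ∈ r (l {f}))
    (hne : Nonempty p.A) : p ∈ Iso := by
  obtain ⟨g0⟩ := hne
  rw [← r_univ]
  intro k _ a b ha hb hab
  have h1 : addPt k ∈ l {f} := mem_l_of_empty hA ⟨Sum.inr PUnit.unit⟩
  obtain ⟨s, hs, hs1, hs2⟩ := lifts_mpl.1 (hp _ h1) (Sum.elim a (fun _ => g0))
    (Sum.elim b (fun _ => p.f g0)) (ha.sumElim continuous_const) (hb.sumElim continuous_const) (by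
      rintro (c | c)
      · exact hab c
      · rfl)
  exact ⟨fun d => s (Sum.inl d), hs.comp continuous_inl, fun c => hs1 (Sum.inl c),
    fun d => hs2 (Sum.inl d)⟩

theorem empty_mem_rl {f : Mp.{u}} (hA : f.A → False) (y0 : f.B) {p : Mp.{u}}
    (hp : p.A → False) : p ∈ r (l {f}) := by
  intro k hk a b _ _ _
  have hkA : k.A → False := fun c => hp (a c)
  obtain ⟨s, -, -, -⟩ := hk f rfl (fun c => (hkA c).elim) (fun _ => y0) (cont_of_isEmpty hkA _)
    continuous_const (fun c => (hkA c).elim)
  have hkB : k.B → False := fun d => hA (s d)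
  exact ⟨fun d => (hkB d).elim, cont_of_isEmpty hkB _, fun c => (hkA c).elim,
    fun d => (hkB d).elim⟩

theorem caseB {f : Mp.{u}} (hA : f.A → False) (y0 : f.B) : r (r (l {f})) = Split := by
  apply Subset.antisymm
  · intro q hq
    have h1 : fromE q.B ∈ r (l {f}) := empty_mem_rl hA y0 (fun x : PEmpty.{u + 1} => x.elim)
    obtain ⟨s, hs, -, hs2⟩ := lifts_mpl.1 (hq _ h1) (fun x => x.elim) id
      (by fun_prop) continuous_id (fun x => x.elim)
    exact ⟨s, hs, hs2⟩
  · rintro q ⟨σ, hσ, hσ2⟩ p hp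
    by_cases hne : Nonempty p.A
    · exact iso_lifts (rl_empty hA hp hne) q
    · intro a b _ hb _
      exact ⟨fun d => σ (b d), hσ.comp hb, fun c => (hne ⟨c⟩).elim, fun d => hσ2 _⟩

theorem caseC_sub {f : Mp.{u}} (x0 : f.A) {y1 : f.B} (hy1 : y1 ∉ range f.f) :
    l {f} ⊆ Pi0 := by
  intro k hk O hO hr
  apply eq_univ_of_forall
  intro d
  by_contra hd
  obtain ⟨s, -, -, hs⟩ := hk f rfl (fun _ => x0) (ind O (f.f x0) y1) continuous_const
    (continuous_ind_clopen hO _ _) (by
      intro c
      rw [ind_of_mem (hr ⟨c, rfl⟩)])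
  have h1 := hs d
  rw [ind_of_not_mem hd] at h1
  exact hy1 ⟨_, h1⟩

/-- the dual of lemma A, first part -/
theorem init_of_T8_notMem {Z : Set Mp.{u}} (hZ : r Z ⊆ r (r Pi0)) (h8 : T8 ∉ r Z) :
    r Z ⊆ Init := by
  intro q hq
  have hq' := hZ hq
  obtain ⟨σ, hσ, hσ2⟩ := section_of hq'
  intro O hO
  have hsat : ∀ g ∈ O, ∀ g', q.f g = q.f g' → g' ∈ O := by
    intro g hg g' he
    by_contra hg'
    obtain ⟨g2, hg2, h1, h2⟩ := gen_of hq' g g' (q.f g) (specializes_refl _) (by rw [he])
    have hg2O : g2 ∈ O := h1.mem_open hO hg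
    apply h8
    intro k hk
    refine lifts_mp.2 ?_
    intro a b ha _ _
    obtain ⟨s, hs, hs1, -⟩ := hq k hk (ind {c | a c = SS.i} g2 g') (fun _ => q.f g)
      (continuous_ind (isOpen_eq_i ha) h2) continuous_const (by
        intro c
        by_cases hc : c ∈ {c | a c = SS.i}
        · rw [ind_of_mem hc, hg2]
        · rw [ind_of_not_mem hc, he])
    refine ⟨ind (s ⁻¹' O) SS.i SS.o,
      continuous_ind (hO.preimage hs) (continuous_SS_iff.1 continuous_id), ?_, fun _ => rfl⟩
    intro c
    by_cases hc : c ∈ {c | a c = SS.i}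
    · have h3 : k.f c ∈ s ⁻¹' O := by
        rw [mem_preimage, hs1, ind_of_mem hc]
        exact hg2O
      rw [ind_of_mem h3]
      exact (mem_ofPred_eq.mp hc).symm
    · have h3 : k.f c ∉ s ⁻¹' O := by
        rw [mem_preimage, hs1, ind_of_not_mem hc]
        exact hg'
      rw [ind_of_not_mem h3]
      have hc' : ¬ a c = SS.i := hc
      generalize a c = z at hc'
      cases z with
      | o => rfl
      | i => exact absurd rfl hc'
  refine ⟨σ ⁻¹' O, hO.preimage hσ, ?_⟩
  ext g
  rw [mem_preimage, mem_preimage]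
  exact ⟨fun h => hsat _ h _ (hσ2 _), fun h => hsat _ h _ (hσ2 _).symm⟩

theorem inj_of_T1_notMem {Z : Set Mp.{u}} (hZ : r Z ⊆ Init) (h1 : T1 ∉ r Z) :
    r Z ⊆ Inj := by
  intro q hq g g' he
  by_contra hne
  apply h1
  intro k hk
  refine lifts_mp.2 ?_
  intro a b _ _ _
  have hin : Inseparable g g' := by
    rw [inseparable_iff_forall_isOpen]
    intro O hO
    obtain ⟨O', -, hO''⟩ := hZ hq O hO
    rw [← hO'', mem_preimage, mem_preimage, he]
  obtain ⟨s, hs, hs1, -⟩ := hq k hk (ind {c | a c = JJ.i} g g') (fun _ => q.f g)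
    (continuous_ind_insep _ hin) continuous_const (by
      intro c
      by_cases hc : c ∈ {c | a c = JJ.i}
      · rw [ind_of_mem hc]
      · rw [ind_of_not_mem hc, he])
  refine ⟨ind {d | s d = g} JJ.i JJ.o, continuous_JJ _, ?_, fun _ => rfl⟩
  intro c
  by_cases hc : c ∈ {c | a c = JJ.i}
  · have h3 : k.f c ∈ {d | s d = g} := by
      change s (k.f c) = g
      rw [hs1, ind_of_mem hc]
    rw [ind_of_mem h3]
    exact (mem_ofPred_eq.mp hc).symm
  · have h3 : k.f c ∉ {d | s d = g} := by
      intro h4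
      have h5 : s (k.f c) = g := h4
      rw [hs1, ind_of_not_mem hc] at h5
      exact hne h5.symm
    rw [ind_of_not_mem h3]
    have hc' : ¬ a c = JJ.i := hc
    generalize a c = z at hc'
    cases z with
    | o => rfl
    | i => exact absurd rfl hc'

theorem caseC_r {P : Set Mp.{u}} (hP : P ⊆ Pi0) : r (r (r P)) ∈ Std := by
  have hZ : r (r P) ⊆ r (r Pi0) := r_anti (r_anti hP)
  by_cases h8 : T8 ∈ r (r P)
  · have : r (r (r P)) = r {T8} := by
      apply Subset.antisymm (r_single h8)
      exact rrPi0_sub.trans (r_anti hZ)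
    rw [this]
    exact base_std (by simp)
  · have hI := init_of_T8_notMem hZ h8
    have hS : r (r P) ⊆ Surj := by
      intro q hq h
      obtain ⟨σ, -, hσ2⟩ := section_of (hZ hq)
      exact ⟨σ h, hσ2 h⟩
    by_cases h1 : T1 ∈ r (r P)
    · have : r (r (r P)) = r SI := by
        apply Subset.antisymm
        · rw [rT1_eq]
          exact r_single h1
        · exact r_anti (subset_inter hS hI)
      rw [this]
      exact base_std (by simp)
    · have hJ := inj_of_T1_notMem hI h1
      have : r (r (r P)) = univ := by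
        apply eq_univ_of_forall
        intro p i hi
        exact iso_lifts ⟨⟨hJ hi, hS hi⟩, hI hi⟩ p
      rw [this]
      exact base_std (by simp)

/-- parts (4) and (5) -/
theorem Rr_mem (f : Mp.{u}) [Finite f.A] [Finite f.B] :
    l (l (r (r (l {f})))) ∈ Std ∧ r (r (r (l {f}))) ∈ Std := by
  by_cases hs : f ∈ Surj
  · exact ⟨caseA_ll hs, caseA_r f hs⟩
  · have : ∃ y1, y1 ∉ range f.f := by
      by_contra hcon
      push Not at hcon
      exact hs hcon
    obtain ⟨y1, hy1⟩ := this
    by_cases hA : Nonempty f.A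
    · obtain ⟨x0⟩ := hA
      have hsub := caseC_sub x0 hy1
      exact ⟨llrr_mem hsub, caseC_r hsub⟩
    · have hA' : f.A → False := fun x => hA ⟨x⟩
      rw [caseB hA' y1]
      refine ⟨llSplit, ?_⟩
      rw [rSplit]
      exact base_std (by simp)

/-- the finite set containing the orbit -/
def OrbSet (f : Mp.{u}) : Set (Set Mp.{u}) :=
  {{f}, l {f}, r {f}, r (l {f}), l (r {f}), r (r (l {f})), l (r (r (l {f})))} ∪ Std

theorem orbSet_l (f : Mp.{u}) [Finite f.A] [Finite f.B] {P : Set Mp.{u}} (h : P ∈ OrbSet f) :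
    l P ∈ OrbSet f := by
  rcases h with (rfl | rfl | rfl | rfl | rfl | rfl | rfl) | h
  · left
    simp
  · exact Or.inr (llf_mem f)
  · left
    simp
  · rw [lrl]
    left
    simp
  · exact Or.inr (llrf_mem f)
  · left
    simp
  · exact Or.inr (Rr_mem f).1
  · exact Or.inr (std_l h)

theorem orbSet_r (f : Mp.{u}) [Finite f.A] [Finite f.B] {P : Set Mp.{u}} (h : P ∈ OrbSet f) :
    r P ∈ OrbSet f := by
  rcases h with (rfl | rfl | rfl | rfl | rfl | rfl | rfl) | h
  · left
    simp
  · left
    simp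
  · exact Or.inr (rrf_mem f)
  · left
    simp
  · rw [rlr]
    left
    simp
  · exact Or.inr (Rr_mem f).2
  · rw [rlr]
    left
    simp
  · exact Or.inr (std_r h)

theorem orbSet_finite (f : Mp.{u}) : (OrbSet f).Finite := (toFinite _).union finite_std

/-- the orbit of a map of finite spaces is finite -/
theorem orbit_finite (f : Mp.{u}) [Finite f.A] [Finite f.B] :
    {P : Set Mp.{u} | ∃ w : List Bool,
      P = w.foldl (fun Q b => if b then l Q else r Q) {f}}.Finite := by
  apply (orbSet_finite f).subset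
  rintro P ⟨w, rfl⟩
  have key : ∀ (w : List Bool) (Q : Set Mp.{u}), Q ∈ OrbSet f →
      w.foldl (fun Q b => if b then l Q else r Q) Q ∈ OrbSet f := by
    intro w
    induction w with
    | nil => exact fun Q hQ => hQ
    | cons b w ih =>
      intro Q hQ
      rw [List.foldl_cons]
      apply ih
      cases b with
      | true => exact orbSet_l f hQ
      | false => exact orbSet_r f hQ
  apply key
  left
  simp

end Pool.Agent.Helper70.LP
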