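import Pool.Agent.Helper70.LP.Tests

set_option autoImplicit false

open Set Filter Topology

universe u

namespace Pool.Agent.Helper70.LP

def Den : Set Mp.{u} := {k | ∀ O : Set k.B, IsClosed O → range k.f ⊆ O → O = univ}
def CoDen : Set Mp.{u} := {k | ∀ O : Set k.B, IsOpen O → range k.f ⊆ O → O = univ}
def Pi0 : Set Mp.{u} := {k | ∀ O : Set k.B, IsClopen O → range k.f ⊆ O → O = univ}

theorem lifts_mp {k : Mp.{u}} {A B : Type u} [TopologicalSpace A] [TopologicalSpace B] {f : A → B}
    {hf : Continuous f} : Lifts k (mp f hf) ↔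
    ∀ (u : k.A → A) (v : k.B → B), Continuous u → Continuous v →
      (∀ a, f (u a) = v (k.f a)) →
      ∃ h : k.B → A, Continuous h ∧ (∀ a, h (k.f a) = u a) ∧ ∀ b, f (h b) = v b := Iff.rfl

theorem isOpen_eq_i {B : Type u} [TopologicalSpace B] {s : B → SS.{u}} (hs : Continuous s) :
    IsOpen {b | s b = SS.i} := by
  have h1 : IsOpen ({SS.i} : Set SS.{u}) := by
    rw [SS.isOpen_iff]
    intro h
    cases h
  exact h1.preimage hs

theorem isClosed_eq_o {B : Type u} [TopologicalSpace B] {s : B → SS.{u}} (hs : Continuous s) :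
    IsClosed {b | s b = SS.o} := by
  rw [← isOpen_compl_iff]
  have : {b | s b = SS.o}ᶜ = {b | s b = SS.i} := by
    ext x
    simp only [mem_compl_iff, mem_ofPred_eq]
    cases s x <;> simp
  rw [this]
  exact isOpen_eq_i hs

theorem l_T1 : l {T1.{u}} = Inj := by
  ext k
  constructor
  · intro h c c' hcc
    obtain ⟨s, -, hs, -⟩ := lifts_mp.1 (h T1 rfl) (ind {c} JJ.i JJ.o : k.A → JJ.{u}) (fun _ => PUnit.unit)
      (continuous_JJ _) continuous_const (fun _ => rfl)
    by_contra hne
    have h1 := hs c
    have h2 := hs c'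
    rw [ind_of_mem (mem_singleton c)] at h1
    rw [ind_of_not_mem (fun h => hne (mem_singleton_iff.1 h).symm)] at h2
    rw [hcc, h2] at h1
    cases h1
  · rintro h p rfl
    refine lifts_mp.2 ?_
    intro a b ha hb hab
    classical
    refine ⟨fun d => if h : ∃ c, k.f c = d then a h.choose else JJ.o, continuous_JJ _, ?_, ?_⟩
    · intro c
      have hex : ∃ c', k.f c' = k.f c := ⟨c, rfl⟩
      have h1 : hex.choose = c := h hex.choose_spec
      simp only [hex, dif_pos]
      rw [h1]
    · intro d
      rfl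

theorem l_T2 : l {T2.{u}} = Surj := by
  ext k
  constructor
  · intro h d
    by_contra hd
    obtain ⟨s, -, -, hs⟩ := lifts_mp.1 (h T2 rfl) (fun _ => PUnit.unit) (ind {d} JJ.i JJ.o : k.B → JJ.{u})
      continuous_const (continuous_JJ _) (by
        intro c
        rw [ind_of_not_mem]
        · intro hc
          exact hd ⟨c, hc⟩)
    have h1 := hs d
    rw [ind_of_mem (mem_singleton d)] at h1
    cases h1
  · rintro h p rfl
    refine lifts_mp.2 ?_
    intro a b ha hb hab
    refine ⟨fun _ => PUnit.unit, continuous_const, fun _ => rfl, ?_⟩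
    intro d
    obtain ⟨c, rfl⟩ := h d
    exact hab c

theorem l_T3 : l {T3.{u}} = Den := by
  ext k
  constructor
  · intro h O hO hr
    obtain ⟨s, -, -, hs⟩ := lifts_mp.1 (h T3 rfl) (fun _ => PUnit.unit) (ind Oᶜ SS.i SS.o : k.B → SS.{u})
      continuous_const (continuous_ind hO.isOpen_compl (continuous_SS_iff.1 continuous_id)) (by
        intro c
        rw [ind_of_not_mem]
        · intro hc
          exact hc (hr ⟨c, rfl⟩))
    apply eq_univ_of_forall
    intro d
    by_contra hd
    have h1 := hs d
    rw [ind_of_mem hd] at h1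
    cases h1
  · rintro h p rfl
    refine lifts_mp.2 ?_
    intro a b ha hb hab
    refine ⟨fun _ => PUnit.unit, continuous_const, fun _ => rfl, ?_⟩
    intro d
    have h1 := h _ (isClosed_eq_o hb) (by
      rintro _ ⟨c, rfl⟩
      exact (hab c).symm)
    have h2 : d ∈ {d | b d = SS.o} := by
      rw [h1]
      exact mem_univ _
    exact h2.symm

theorem l_T4 : l {T4.{u}} = CoDen := by
  ext k
  constructor
  · intro h O hO hr
    obtain ⟨s, -, -, hs⟩ := lifts_mp.1 (h T4 rfl) (fun _ => PUnit.unit) (ind O SS.i SS.o : k.B → SS.{u})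
      continuous_const (continuous_ind hO (continuous_SS_iff.1 continuous_id)) (by
        intro c
        rw [ind_of_mem (hr ⟨c, rfl⟩)])
    apply eq_univ_of_forall
    intro d
    by_contra hd
    have h1 := hs d
    rw [ind_of_not_mem hd] at h1
    cases h1
  · rintro h p rfl
    refine lifts_mp.2 ?_
    intro a b ha hb hab
    refine ⟨fun _ => PUnit.unit, continuous_const, fun _ => rfl, ?_⟩
    intro d
    have h1 := h _ (isOpen_eq_i hb) (by
      rintro _ ⟨c, rfl⟩
      exact (hab c).symm)
    have h2 : d ∈ {d | b d = SS.i} := by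
      rw [h1]
      exact mem_univ _
    exact h2.symm

theorem l_T5 : l {T5.{u}} = Pi0 := by
  ext k
  constructor
  · intro h O hO hr
    obtain ⟨s, -, -, hs⟩ := lifts_mp.1 (h T5 rfl) (fun _ => PUnit.unit) (ind O Two.o Two.i : k.B → Two.{u})
      continuous_const (continuous_ind_clopen hO _ _) (by
        intro c
        rw [ind_of_mem (hr ⟨c, rfl⟩)])
    apply eq_univ_of_forall
    intro d
    by_contra hd
    have h1 := hs d
    rw [ind_of_not_mem hd] at h1
    cases h1
  · rintro h p rfl
    refine lifts_mp.2 ?_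
    intro a b ha hb hab
    refine ⟨fun _ => PUnit.unit, continuous_const, fun _ => rfl, ?_⟩
    intro d
    have hcl : IsClopen (b ⁻¹' ({Two.o} : Set Two.{u})) :=
      (isClopen_discrete ({Two.o} : Set Two.{u})).preimage hb
    have h1 := h _ hcl (by
      rintro _ ⟨c, rfl⟩
      exact (hab c).symm)
    have h2 : d ∈ b ⁻¹' ({Two.o} : Set Two.{u}) := by
      rw [h1]
      exact mem_univ _
    exact h2.symm

theorem l_T8 : l {T8.{u}} = Init := by
  ext k
  constructor
  · intro h O hO
    obtain ⟨s, hc, hs, -⟩ := lifts_mp.1 (h T8 rfl) (ind O SS.i SS.o : k.A → SS.{u}) (fun _ => PUnit.unit)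
      (continuous_ind hO (continuous_SS_iff.1 continuous_id)) continuous_const (fun _ => rfl)
    refine ⟨_, isOpen_eq_i hc, ?_⟩
    ext c
    rw [mem_preimage, mem_ofPred_eq]
    by_cases hcO : c ∈ O
    · have h1 := hs c
      rw [ind_of_mem hcO] at h1
      simp [h1, hcO]
    · have h1 := hs c
      rw [ind_of_not_mem hcO] at h1
      simp [h1, hcO]
  · rintro h p rfl
    refine lifts_mp.2 ?_
    intro a b ha hb hab
    obtain ⟨O', hO', he⟩ := h _ (isOpen_eq_i ha)
    refine ⟨ind O' SS.i SS.o, continuous_ind hO' (continuous_SS_iff.1 continuous_id), ?_,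
      fun _ => rfl⟩
    intro c
    have h1 : k.f c ∈ O' ↔ a c = SS.i := by
      have : c ∈ k.f ⁻¹' O' ↔ c ∈ {c | a c = SS.i} := by rw [he]
      exact this
    by_cases hc : a c = SS.i
    · rw [ind_of_mem (h1.2 hc), hc]
    · rw [ind_of_not_mem (fun h => hc (h1.1 h))]
      generalize a c = z at hc
      cases z with
      | o => rfl
      | i => exact absurd rfl hc

theorem final_of_T7 {k : Mp.{u}} (h : Lifts k T7) : k ∈ Final := by
  intro T hT
  obtain ⟨s, hc, hs, hp⟩ := lifts_mp.1 h (ind (k.f ⁻¹' T) SS.i SS.o : k.A → SS.{u})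
    (ind T JJ.i JJ.o : k.B → JJ.{u})
    (continuous_ind hT (continuous_SS_iff.1 continuous_id)) (continuous_JJ _) (by
      intro c
      by_cases h : k.f c ∈ T
      · rw [ind_of_mem h, ind_of_mem (mem_preimage.2 h)]
        rfl
      · rw [ind_of_not_mem h, ind_of_not_mem (fun h' => h (mem_preimage.1 h'))]
        rfl)
  have hop := isOpen_eq_i hc
  have : {d | s d = SS.i} = T := by
    ext d
    rw [mem_ofPred_eq]
    have h1 := hp d
    by_cases hd : d ∈ T
    · rw [ind_of_mem hd] at h1
      generalize s d = z at h1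
      cases z with
      | o => cases h1
      | i => simp [hd]
    · rw [ind_of_not_mem hd] at h1
      generalize s d = z at h1
      cases z with
      | o => simp [hd]
      | i => cases h1
  rwa [this] at hop

/-- membership tests for left classes -/
theorem T1_of_not_inj {R : Set Mp.{u}} (h : ¬ l R ⊆ Inj) : T1 ∈ l R := by
  rw [not_subset] at h
  obtain ⟨i, hi, hni⟩ := h
  intro p hp
  rw [lifts_T1]
  intro g0 g1 hin he
  have : ∃ a a', i.f a = i.f a' ∧ a ≠ a' := by
    by_contra hcon
    push Not at hcon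
    exact hni fun a a' h => hcon a a' h
  obtain ⟨a, a', haa, hne⟩ := this
  obtain ⟨s, -, hs, -⟩ := hi p hp (ind {a} g0 g1) (fun _ => p.f g0) (continuous_ind_insep _ hin)
    continuous_const (by
      intro c
      by_cases hc : c ∈ ({a} : Set i.A)
      · rw [ind_of_mem hc]
      · rw [ind_of_not_mem hc, he])
  have h1 := hs a
  have h2 := hs a'
  rw [ind_of_mem (mem_singleton a)] at h1
  rw [ind_of_not_mem (fun h => hne (mem_singleton_iff.1 h).symm)] at h2
  rw [← h1, ← h2, haa]

theorem T78_of_not_init {R : Set Mp.{u}} (h : ¬ l R ⊆ Init) : T7 ∈ l R ∨ T8 ∈ l R := by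
  rw [not_subset] at h
  obtain ⟨i, hi, hni⟩ := h
  have : ∃ O : Set i.A, IsOpen O ∧ ∀ O' : Set i.B, IsOpen O' → i.f ⁻¹' O' ≠ O := by
    by_contra hcon
    push Not at hcon
    exact hni fun O hO => hcon O hO
  obtain ⟨O, hO, hno⟩ := this
  by_cases hsat : ∃ a ∈ O, ∃ a' ∉ O, i.f a = i.f a'
  · right
    obtain ⟨a, ha, a', ha', he⟩ := hsat
    intro p hp
    rw [lifts_T8]
    intro g0 g1 hsp hpe
    obtain ⟨s, -, hs, -⟩ := hi p hp (ind O g1 g0) (fun _ => p.f g0) (continuous_ind hO hsp)
      continuous_const (by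
        intro c
        by_cases hc : c ∈ O
        · rw [ind_of_mem hc, hpe]
        · rw [ind_of_not_mem hc])
    have h1 := hs a
    have h2 := hs a'
    rw [ind_of_mem ha] at h1
    rw [ind_of_not_mem ha'] at h2
    rw [← h1, ← h2, he]
  · left
    push Not at hsat
    intro p hp
    rw [lifts_T7]
    intro g0 g1 hsp hin
    have hpre : i.f ⁻¹' (i.f '' O) = O := by
      apply Subset.antisymm
      · rintro c ⟨a, ha, hac⟩
        by_contra hc
        exact hsat a ha c hc hac
      · exact subset_preimage_image _ _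
    obtain ⟨s, hsc, hs, hps⟩ := hi p hp (ind O g1 g0) (ind (i.f '' O) (p.f g1) (p.f g0))
      (continuous_ind hO hsp) (continuous_ind_insep _ hin.symm) (by
        intro c
        by_cases hc : c ∈ O
        · rw [ind_of_mem hc, ind_of_mem (mem_image_of_mem _ hc)]
        · rw [ind_of_not_mem hc, ind_of_not_mem]
          intro h
          apply hc
          rw [← hpre]
          exact h)
    -- show the reverse specialization
    have hrev : g0 ⤳ g1 := by
      rw [specializes_iff_forall_open]
      intro W hW hg1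
      by_contra hg0
      apply hno (s ⁻¹' W) (hW.preimage hsc)
      ext c
      rw [mem_preimage, mem_preimage, hs c]
      by_cases hc : c ∈ O
      · rw [ind_of_mem hc]
        simp [hg1, hc]
      · rw [ind_of_not_mem hc]
        simp [hg0, hc]
    exact inseparable_iff_specializes_and.2 ⟨hrev, hsp⟩

end Pool.Agent.Helper70.LP
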