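import Pool.Agent.Helper70.LP.Left

set_option autoImplicit false

open Set Filter Topology

universe u

namespace Pool.Agent.Helper70.LP

/-- points of the first kind -/
inductive E0 (C D : Type u) : Type u
  | c : C → E0 C D
  | ctr : D → E0 C D
  | iso : D → D → ℕ → E0 C D

/-- all points -/
inductive EE (k : Mp.{u}) : Type u
  | pt : E0 k.A k.B → EE k
  | z : E0 k.A k.B → EE k
  | b : k.B → EE k

def E0.pr {C D : Type u} (k : C → D) : E0 C D → D
  | .c x => k x
  | .ctr x => x
  | .iso _ d _ => d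

def EEpr (k : Mp.{u}) : EE k → k.B
  | .pt e => e.pr k.f
  | .z e => e.pr k.f
  | .b d => d

/-- open sets of the space -/
def EOpen (k : Mp.{u}) (O : Set (EE k)) : Prop :=
  IsOpen {c : k.A | EE.pt (E0.c c) ∈ O} ∧
  (∀ x : k.B, EE.pt (E0.ctr x) ∈ O → ∃ U : Set k.B, IsOpen U ∧ x ∈ U ∧
    ∀ d ∈ U, {n : ℕ | EE.pt (E0.iso x d n) ∉ O}.Finite) ∧
  (∀ e : E0 k.A k.B, EE.pt e ∈ O → EE.z e ∈ O) ∧
  (∀ e : E0 k.A k.B, EE.b (E0.pr k.f e) ∈ O → EE.z e ∈ O)

instance (k : Mp.{u}) : TopologicalSpace (EE k) where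
  IsOpen O := EOpen k O
  isOpen_univ := by
    refine ⟨?_, ?_, ?_, ?_⟩
    · have : {c : k.A | EE.pt (E0.c c) ∈ (univ : Set (EE k))} = univ :=
        eq_univ_of_forall fun c => mem_univ _
      rw [this]
      exact isOpen_univ
    · intro x _
      exact ⟨univ, isOpen_univ, mem_univ _, fun d _ => by simp⟩
    · intro e _
      exact mem_univ _
    · intro e _
      exact mem_univ _
  isOpen_inter := by
    intro O O' h h'
    refine ⟨h.1.inter h'.1, ?_, ?_, ?_⟩
    · intro x hx
      obtain ⟨U, hU, hxU, hfin⟩ := h.2.1 x hx.1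
      obtain ⟨U', hU', hxU', hfin'⟩ := h'.2.1 x hx.2
      refine ⟨U ∩ U', hU.inter hU', ⟨hxU, hxU'⟩, ?_⟩
      intro d hd
      apply ((hfin d hd.1).union (hfin' d hd.2)).subset
      intro n hn
      by_contra hcon
      rw [mem_union, not_or] at hcon
      exact hn ⟨not_not.1 hcon.1, not_not.1 hcon.2⟩
    · intro e he
      exact ⟨h.2.2.1 e he.1, h'.2.2.1 e he.2⟩
    · intro e he
      exact ⟨h.2.2.2 e he.1, h'.2.2.2 e he.2⟩
  isOpen_sUnion := by
    intro S hS
    refine ⟨?_, ?_, ?_, ?_⟩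
    · have : {c : k.A | EE.pt (E0.c c) ∈ ⋃₀ S} = ⋃ O ∈ S, {c : k.A | EE.pt (E0.c c) ∈ O} := by
        ext c
        simp
      rw [this]
      exact isOpen_biUnion fun O hO => (hS O hO).1
    · rintro x ⟨O, hO, hx⟩
      obtain ⟨U, hU, hxU, hfin⟩ := (hS O hO).2.1 x hx
      refine ⟨U, hU, hxU, ?_⟩
      intro d hd
      apply (hfin d hd).subset
      intro n hn hn'
      exact hn ⟨O, hO, hn'⟩
    · rintro e ⟨O, hO, he⟩
      exact ⟨O, hO, (hS O hO).2.2.1 e he⟩
    · rintro e ⟨O, hO, he⟩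
      exact ⟨O, hO, (hS O hO).2.2.2 e he⟩

theorem EE_isOpen_iff {k : Mp.{u}} {O : Set (EE k)} : IsOpen O ↔ EOpen k O := Iff.rfl

theorem continuous_EEpr (k : Mp.{u}) : Continuous (EEpr k) := by
  rw [continuous_def]
  intro T hT
  rw [EE_isOpen_iff]
  refine ⟨hT.preimage k.cont, ?_, ?_, ?_⟩
  · intro x hx
    refine ⟨T, hT, hx, ?_⟩
    intro d hd
    have : {n : ℕ | EE.pt (E0.iso x d n) ∉ EEpr k ⁻¹' T} = ∅ := by
      apply eq_empty_of_forall_notMem
      intro n hn
      exact hn hd
    rw [this]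
    exact finite_empty
  · intro e he
    exact he
  · intro e he
    exact he

theorem EEpr_final (k : Mp.{u}) {T : Set k.B} (h : IsOpen (EEpr k ⁻¹' T)) : IsOpen T := by
  rw [EE_isOpen_iff] at h
  rw [isOpen_iff_forall_mem_open]
  intro x hx
  obtain ⟨U, hU, hxU, hfin⟩ := h.2.1 x hx
  refine ⟨U, ?_, hU, hxU⟩
  intro d hd
  have h1 := hfin d hd
  obtain ⟨n, hn⟩ := h1.exists_notMem
  exact not_not.1 hn

def EEin (k : Mp.{u}) (c : k.A) : EE k := EE.pt (E0.c c)

theorem continuous_EEin (k : Mp.{u}) : Continuous (EEin k) := by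
  rw [continuous_def]
  intro O hO
  exact (EE_isOpen_iff.1 hO).1

theorem specializes_z (k : Mp.{u}) (e : E0 k.A k.B) :
    (EE.z e : EE k) ⤳ (EE.pt e : EE k) := by
  rw [specializes_iff_forall_open]
  intro O hO he
  exact (EE_isOpen_iff.1 hO).2.2.1 e he

theorem specializes_z' (k : Mp.{u}) (e : E0 k.A k.B) :
    (EE.z e : EE k) ⤳ (EE.b (E0.pr k.f e) : EE k) := by
  rw [specializes_iff_forall_open]
  intro O hO he
  exact (EE_isOpen_iff.1 hO).2.2.2 e he

/-- a map out of the space which identifies specializing pairs in fibres is constant on fibres -/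
theorem EE_const {k : Mp.{u}} {G : Type u} [TopologicalSpace G] {H : Type u} {p : G → H}
    (hp : ∀ g0 g1 : G, g1 ⤳ g0 → p g0 = p g1 → g0 = g1)
    {a : EE k → G} (ha : Continuous a) {b : k.B → H} (hab : ∀ e, p (a e) = b (EEpr k e))
    (e : EE k) : a e = a (EE.b (EEpr k e) : EE k) := by
  have hz : ∀ e : E0 k.A k.B, a (EE.z e : EE k) = a (EE.pt e : EE k) ∧
      a (EE.z e : EE k) = a (EE.b (E0.pr k.f e) : EE k) := by
    intro e
    constructor
    · exact (hp _ _ ((specializes_z k e).map ha) (by rw [hab, hab]; rfl)).symm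
    · exact (hp _ _ ((specializes_z' k e).map ha) (by rw [hab, hab]; rfl)).symm
  cases e with
  | pt e => exact (hz e).1.symm.trans (hz e).2
  | z e => exact (hz e).2
  | b d => rfl

theorem lifts_mpl {p : Mp.{u}} {A B : Type u} [TopologicalSpace A] [TopologicalSpace B] {f : A → B}
    {hf : Continuous f} : Lifts (mp f hf) p ↔
    ∀ (u : A → p.A) (v : B → p.B), Continuous u → Continuous v →
      (∀ a, p.f (u a) = v (f a)) →
      ∃ h : B → p.A, Continuous h ∧ (∀ a, h (f a) = u a) ∧ ∀ b, p.f (h b) = v b := Iff.rfl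

theorem EE_mem (R : Set Mp.{u}) (h : T8 ∈ l R) (k : Mp.{u}) :
    mp (EEpr k) (continuous_EEpr k) ∈ l R := by
  intro p hp
  refine lifts_mpl.2 ?_
  intro a b ha hb hab
  have hp8 := lifts_T8.1 (h p hp)
  have hconst := EE_const (k := k) hp8 ha hab
  refine ⟨fun d => a (EE.b d : EE k), ?_, ?_, ?_⟩
  · rw [continuous_def]
    intro W hW
    apply EEpr_final k
    have : EEpr k ⁻¹' ((fun d => a (EE.b d : EE k)) ⁻¹' W) = a ⁻¹' W := by
      ext e
      exact Iff.of_eq (congrArg (· ∈ W) (hconst e).symm)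
    rw [this]
    exact hW.preimage ha
  · intro e
    exact (hconst e).symm
  · intro d
    exact hab (EE.b d : EE k)

/-- the D lemma -/
theorem final_of_T8 (R : Set Mp.{u}) (h : T8 ∈ l R) : l (l R) ⊆ Final := by
  intro k hk T hT
  obtain ⟨s, hs, -, hps⟩ := lifts_mp.1 (hk _ (EE_mem R h k)) (EEin k) id (continuous_EEin k)
    continuous_id (fun _ => rfl)
  -- the open set
  let O : Set (EE k) := {e | EEpr k e ∈ T ∨ ∃ x d n, (e = EE.pt (E0.iso x d n) ∨
    e = EE.z (E0.iso x d n)) ∧ s d ≠ EE.pt (E0.iso x d n) ∧ s d ≠ EE.z (E0.iso x d n)}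
  have hO : IsOpen O := by
    rw [EE_isOpen_iff]
    refine ⟨?_, ?_, ?_, ?_⟩
    · have : {c : k.A | (EE.pt (E0.c c) : EE k) ∈ O} = k.f ⁻¹' T := by
        ext c
        constructor
        · rintro (h1 | ⟨x, d, n, h1 | h1, -⟩)
          · exact h1
          · cases h1
          · cases h1
        · intro h1
          exact Or.inl h1
      rw [this]
      exact hT
    · intro x _
      refine ⟨univ, isOpen_univ, mem_univ _, ?_⟩
      intro d _
      apply Set.Subsingleton.finite
      intro n hn m hm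
      have key : ∀ n, (EE.pt (E0.iso x d n) : EE k) ∉ O →
          s d = EE.pt (E0.iso x d n) ∨ s d = EE.z (E0.iso x d n) := by
        intro n hn
        by_contra hcon
        rw [not_or] at hcon
        exact hn (Or.inr ⟨x, d, n, Or.inl rfl, hcon.1, hcon.2⟩)
      rcases key n hn with h1 | h1 <;> rcases key m hm with h2 | h2 <;>
        · rw [h1] at h2
          cases h2
          try rfl
    · intro e he
      rcases he with h1 | ⟨x, d, n, h1 | h1, h2⟩
      · exact Or.inl h1
      · cases h1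
        exact Or.inr ⟨x, d, n, Or.inr rfl, h2⟩
      · cases h1
    · intro e he
      rcases he with h1 | ⟨x, d, n, h1 | h1, h2⟩
      · exact Or.inl h1
      · cases h1
      · cases h1
  have hTO : s ⁻¹' O = T := by
    ext d
    constructor
    · rintro (h1 | ⟨x, d', n, h1, h2⟩)
      · have h3 : EEpr k (s d) = d := hps d
        rwa [h3] at h1
      · exfalso
        have h3 : EEpr k (s d) = d := hps d
        have h4 : EEpr k (s d) = d' := by
          rcases h1 with h1 | h1 <;> rw [h1] <;> rfl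
        rw [h3] at h4
        subst h4
        rcases h1 with h1 | h1
        · exact h2.1 h1
        · exact h2.2 h1
    · intro hd
      left
      have h3 : EEpr k (s d) = d := hps d
      rwa [h3]
  rw [← hTO]
  exact hO.preimage hs

end Pool.Agent.Helper70.LP
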