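import Pool.Agent.Helper70.LP.LeftD

set_option autoImplicit false

open Set Filter Topology

universe u

namespace Pool.Agent.Helper70.LP

theorem l_single {P : Set Mp.{u}} {t : Mp.{u}} (h : t ∈ P) : l P ⊆ l {t} :=
  l_anti (singleton_subset_iff.2 h)

theorem r_single {P : Set Mp.{u}} {t : Mp.{u}} (h : t ∈ P) : r P ⊆ r {t} :=
  r_anti (singleton_subset_iff.2 h)

theorem quotl : (Quot' : Set Mp.{u}) ⊆ l Inj := by
  intro k hk p hp a b ha hb hab
  have hk1 : Function.Surjective k.f := hk.1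
  have hp' : Function.Injective p.f := hp
  choose σ hσ using hk1
  have hfac : ∀ c, a (σ (k.f c)) = a c := by
    intro c
    apply hp'
    rw [hab, hab, hσ]
  refine ⟨fun d => a (σ d), ?_, hfac, ?_⟩
  · rw [continuous_def]
    intro O hO
    apply hk.2
    have : k.f ⁻¹' ((fun d => a (σ d)) ⁻¹' O) = a ⁻¹' O := by
      ext c
      exact Iff.of_eq (congrArg (· ∈ O) (hfac c))
    rw [this]
    exact hO.preimage ha
  · intro d
    change p.f (a (σ d)) = b d
    rw [hab, hσ]

theorem adl : (AD : Set Mp.{u}) ⊆ l Surj := by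
  intro k hk p hp a b ha hb hab
  have hk1 : Function.Injective k.f := hk.1
  have hp' : Function.Surjective p.f := hp
  classical
  choose σ hσ using hp'
  have hex : ∀ d : k.B, ∃ g, p.f g = b d ∧ ∀ c, k.f c = d → a c = g := by
    intro d
    by_cases h : ∃ c, k.f c = d
    · obtain ⟨c, rfl⟩ := h
      exact ⟨a c, hab c, fun c' hc' => by rw [hk1 hc']⟩
    · exact ⟨σ (b d), hσ _, fun c hc => absurd ⟨c, hc⟩ h⟩
  choose h h1 h2 using hex
  refine ⟨h, ?_, fun c => (h2 _ c rfl).symm, h1⟩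
  rw [continuous_def]
  intro O hO
  apply hk.2
  have : k.f ⁻¹' (h ⁻¹' O) = a ⁻¹' O := by
    ext c
    exact Iff.of_eq (congrArg (· ∈ O) (h2 _ c rfl).symm)
  rw [this]
  exact hO.preimage ha

theorem finall : (Final : Set Mp.{u}) ⊆ l Bij := by
  intro k hk p hp a b ha hb hab
  have hp1 : Function.Injective p.f := hp.1
  have hp' : Function.Surjective p.f := hp.2
  choose σ hσ using hp'
  have hfac : ∀ c, σ (b (k.f c)) = a c := by
    intro c
    apply hp1
    rw [hσ, hab]
  refine ⟨fun d => σ (b d), ?_, hfac, fun d => hσ _⟩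
  rw [continuous_def]
  intro O hO
  apply hk
  have : k.f ⁻¹' ((fun d => σ (b d)) ⁻¹' O) = a ⁻¹' O := by
    ext c
    exact Iff.of_eq (congrArg (· ∈ O) (hfac c))
  rw [this]
  exact hO.preimage ha

/-- continuity from the initial property -/
theorem cont_of_init {p : Mp.{u}} (hp : p ∈ Init) {D : Type*} [TopologicalSpace D]
    {h : D → p.A} {b : D → p.B} (hb : Continuous b) (hh : ∀ d, p.f (h d) = b d) :
    Continuous h := by
  rw [continuous_def]
  intro O hO
  obtain ⟨O', hO', he⟩ := hp O hO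
  have : h ⁻¹' O = b ⁻¹' O' := by
    ext d
    rw [← he, mem_preimage, mem_preimage, mem_preimage, hh]
  rw [this]
  exact hO'.preimage hb

theorem injl : (Inj : Set Mp.{u}) ⊆ l SI := by
  intro k hk p hp a b ha hb hab
  have hk1 : Function.Injective k.f := hk
  have hp' : Function.Surjective p.f := hp.1
  choose σ hσ using hp'
  have hex : ∀ d : k.B, ∃ g, p.f g = b d ∧ ∀ c, k.f c = d → a c = g := by
    intro d
    by_cases h : ∃ c, k.f c = d
    · obtain ⟨c, rfl⟩ := h
      exact ⟨a c, hab c, fun c' hc' => by rw [hk1 hc']⟩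
    · exact ⟨σ (b d), hσ _, fun c hc => absurd ⟨c, hc⟩ h⟩
  choose h h1 h2 using hex
  exact ⟨h, cont_of_init hp.2 hb h1, fun c => (h2 _ c rfl).symm, h1⟩

theorem inj_of_T1 {L : Set Mp.{u}} (h : T1 ∈ L) : l L ⊆ Inj := by
  rw [← l_T1]
  exact l_single h

theorem final_of_not_init {R : Set Mp.{u}} (h : ¬ l R ⊆ Init) : l (l R) ⊆ Final := by
  rcases T78_of_not_init h with h | h
  · intro k hk
    exact final_of_T7 (hk _ h)
  · exact final_of_T8 R h

/-- add a point -/
def addPt (i : Mp.{u}) : Mp.{u} :=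
  mp (Sum.map i.f (id : PUnit.{u + 1} → PUnit.{u + 1})) (i.cont.sumMap continuous_id)

theorem addPt_mem {R : Set Mp.{u}} {i : Mp.{u}} (h : i ∈ l R) : addPt i ∈ l R := by
  intro p hp
  refine lifts_mpl.2 ?_
  intro a b ha hb hab
  obtain ⟨s, hs, hsa, hsb⟩ := h p hp (fun x => a (Sum.inl x)) (fun x => b (Sum.inl x))
    (ha.comp continuous_inl) (hb.comp continuous_inl) (fun x => hab (Sum.inl x))
  refine ⟨Sum.elim s (fun x => a (Sum.inr x)), hs.sumElim (ha.comp continuous_inr), ?_, ?_⟩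
  · rintro (x | x)
    · exact hsa x
    · rfl
  · rintro (x | x)
    · exact hsb x
    · exact hab (Sum.inr x)

theorem surj_of_final {R : Set Mp.{u}} (h : ¬ l R ⊆ Surj) {k : Mp.{u}} (hk : k ∈ l (l R))
    (hf : k ∈ Final) : k ∈ Surj := by
  rw [not_subset] at h
  obtain ⟨i, hi, hni⟩ := h
  have : ∃ b, ∀ a, i.f a ≠ b := by
    by_contra hcon
    push Not at hcon
    exact hni hcon
  obtain ⟨b0, hb0⟩ := this
  have hopen : IsOpen (range k.f) := by
    apply hf
    rw [preimage_range]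
    exact isOpen_univ
  have hclosed : IsClosed (range k.f) := by
    rw [← isOpen_compl_iff]
    apply hf
    rw [preimage_compl, preimage_range, compl_univ]
    exact isOpen_empty
  obtain ⟨s, -, -, hs⟩ := lifts_mp.1 (hk _ (addPt_mem hi)) (fun _ => Sum.inr PUnit.unit)
    (ind (range k.f) (Sum.inr PUnit.unit) (Sum.inl b0)) continuous_const
    (continuous_ind_clopen ⟨hclosed, hopen⟩ _ _) (by
      intro c
      rw [ind_of_mem (mem_range_self c)]
      rfl)
  intro d
  by_contra hd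
  have h1 := hs d
  have hd' : d ∉ range k.f := fun h => hd h
  rw [ind_of_not_mem hd'] at h1
  generalize s d = z at h1
  cases z with
  | inl a =>
    have h2 : (Sum.inl (i.f a) : i.B ⊕ PUnit.{u + 1}) = Sum.inl b0 := h1
    exact hb0 a (Sum.inl_injective h2)
  | inr a => cases h1

/-- relative form of the class `N` -/
def NL (L : Set Mp.{u}) : Set Mp.{u} :=
  {k | ∀ p ∈ L, ∀ v : k.B → p.B, Continuous v → (∀ c, v (k.f c) ∈ range p.f) →
    ∀ d, v d ∈ range p.f}

theorem l_subset_NL {L : Set Mp.{u}} (h : L ⊆ Init) : l L ⊆ NL L := by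
  intro k hk p hp v hv hr d
  choose a ha using hr
  obtain ⟨s, -, -, hs⟩ := hk p hp a v (cont_of_init (h hp) (hv.comp k.cont) ha) hv ha
  exact ⟨s d, hs d⟩

theorem NL_lifts {k p : Mp.{u}} (hp : p ∈ Init) (hi : k ∈ Inj ∨ p ∈ Inj)
    (h : ∀ v : k.B → p.B, Continuous v → (∀ c, v (k.f c) ∈ range p.f) →
    ∀ d, v d ∈ range p.f) : Lifts k p := by
  intro a b ha hb hab
  have hr := h b hb (fun c => ⟨a c, hab c⟩)
  choose σ hσ using hr
  have hex : ∀ d : k.B, ∃ g, p.f g = b d ∧ ∀ c, k.f c = d → a c = g := by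
    intro d
    by_cases h : ∃ c, k.f c = d
    · obtain ⟨c, rfl⟩ := h
      refine ⟨a c, hab c, fun c' hc' => ?_⟩
      rcases hi with hi | hi
      · have hi' : Function.Injective k.f := hi
        rw [hi' hc']
      · have hi' : Function.Injective p.f := hi
        apply hi'
        rw [hab, hab, hc']
    · exact ⟨σ d, hσ _, fun c hc => absurd ⟨c, hc⟩ h⟩
  choose h h1 h2 using hex
  exact ⟨h, cont_of_init hp hb h1, fun c => (h2 _ c rfl).symm, h1⟩

theorem l_eq_NL {L : Set Mp.{u}} (h : L ⊆ Init) (hI : L ⊆ Inj) : l L = NL L := by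
  apply Subset.antisymm (l_subset_NL h)
  intro k hk p hp
  exact NL_lifts (h hp) (Or.inr (hI hp)) (hk p hp)

theorem l_eq_NL' {L : Set Mp.{u}} (h : L ⊆ Init) (hI : T1 ∈ L) : l L = Inj ∩ NL L := by
  apply Subset.antisymm
  · exact subset_inter (inj_of_T1 hI) (l_subset_NL h)
  · rintro k ⟨hk1, hk⟩ p hp
    exact NL_lifts (h hp) (Or.inl hk1) (hk p hp)

end Pool.Agent.Helper70.LP
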