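import Pool.Agent.Helper70.LP.LemA

set_option autoImplicit false

open Set Filter Topology

universe u

namespace Pool.Agent.Helper70.LP

section
variable {R : Set Mp.{u}}

theorem sep2 (h2 : T2 ∉ l R) {p : Mp.{u}} (hp : p ∈ l R) {d : p.B} (hd : d ∉ range p.f) :
    (∃ F : Set p.B, IsClosed F ∧ range p.f ⊆ F ∧ d ∉ F) ∨
    (∃ O : Set p.B, IsOpen O ∧ range p.f ⊆ O ∧ d ∉ O) := by
  by_contra hcon
  rw [not_or] at hcon
  obtain ⟨hF, hO⟩ := hcon
  push Not at hF hO
  apply h2
  intro q hq
  rw [lifts_T2]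
  intro g h1 hin
  obtain ⟨s, hs, hsa, hsb⟩ := hp q hq (fun _ => g) (ind {d} h1 (q.f g)) continuous_const
    (continuous_ind_insep _ hin.symm) (by
      intro c
      rw [ind_of_not_mem]
      intro hc
      exact hd ⟨c, hc⟩)
  refine ⟨s d, ?_, ?_⟩
  · rw [inseparable_iff_forall_isOpen]
    intro W hW
    constructor
    · intro hg
      exact hO _ (hW.preimage hs) (by
        rintro _ ⟨c, rfl⟩
        rw [mem_preimage, hsa]
        exact hg)
    · intro hg
      by_contra hg'
      exact hF _ (hW.isClosed_compl.preimage hs) (by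
        rintro _ ⟨c, rfl⟩
        rw [mem_preimage, hsa]
        exact hg') hg
  · rw [hsb, ind_of_mem (mem_singleton d)]

/-- if neither `T2` nor `T4` is present, ranges are closed -/
theorem sep24 (h2 : T2 ∉ l R) (h4 : T4 ∉ l R) {p : Mp.{u}} (hp : p ∈ l R) {d : p.B}
    (hd : d ∉ range p.f) : ∃ F : Set p.B, IsClosed F ∧ range p.f ⊆ F ∧ d ∉ F := by
  by_contra hcon
  rcases sep2 h2 hp hd with h | ⟨O, hO, hr, hdO⟩
  · exact hcon h
  push Not at hcon
  apply h4
  intro q hq
  rw [lifts_T4]
  intro g h0 hsp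
  obtain ⟨s, hs, hsa, hsb⟩ := hp q hq (fun _ => g) (ind O (q.f g) h0) continuous_const
    (continuous_ind hO hsp) (by
      intro c
      rw [ind_of_mem (hr ⟨c, rfl⟩)])
  refine ⟨s d, ?_, ?_⟩
  · rw [specializes_iff_forall_open]
    intro W hW hg
    by_contra hg'
    exact hcon _ (hW.isClosed_compl.preimage hs) (by
      rintro _ ⟨c, rfl⟩
      rw [mem_preimage, hsa]
      exact hg') hg
  · rw [hsb, ind_of_not_mem hdO]

/-- if neither `T2` nor `T3` is present, ranges are intersections of open sets -/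
theorem sep23 (h2 : T2 ∉ l R) (h3 : T3 ∉ l R) {p : Mp.{u}} (hp : p ∈ l R) {d : p.B}
    (hd : d ∉ range p.f) : ∃ O : Set p.B, IsOpen O ∧ range p.f ⊆ O ∧ d ∉ O := by
  by_contra hcon
  rcases sep2 h2 hp hd with ⟨F, hF, hr, hdF⟩ | h
  swap
  · exact hcon h
  push Not at hcon
  apply h3
  intro q hq
  rw [lifts_T3]
  intro g h1 hsp
  obtain ⟨s, hs, hsa, hsb⟩ := hp q hq (fun _ => g) (ind Fᶜ h1 (q.f g)) continuous_const
    (continuous_ind hF.isOpen_compl hsp) (by
      intro c
      rw [ind_of_not_mem (not_not.2 (hr ⟨c, rfl⟩))])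
  refine ⟨s d, ?_, ?_⟩
  · rw [specializes_iff_forall_open]
    intro W hW hg
    exact hcon _ (hW.preimage hs) (by
      rintro _ ⟨c, rfl⟩
      rw [mem_preimage, hsa]
      exact hg)
  · rw [hsb, ind_of_mem hdF]

theorem isClosed_range24 (h2 : T2 ∉ l R) (h4 : T4 ∉ l R) {p : Mp.{u}} (hp : p ∈ l R) :
    IsClosed (range p.f) := by
  rw [← isOpen_compl_iff, isOpen_iff_forall_mem_open]
  intro d hd
  obtain ⟨F, hF, hr, hdF⟩ := sep24 h2 h4 hp hd
  exact ⟨Fᶜ, compl_subset_compl.2 hr, hF.isOpen_compl, hdF⟩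

/-- the five classes -/
def FiveN : Set (Set Mp.{u}) := {Surj, Den ∩ CoDen, Den, CoDen, Pi0}

theorem NL_sub {L : Set Mp.{u}} {t : Mp.{u}} (ht : t ∈ L) (hI : L ⊆ Init) (hinj : t ∈ Inj) :
    NL L ⊆ l {t} := by
  rintro k hk p rfl
  exact NL_lifts (hI ht) (Or.inr hinj) (hk _ ht)

theorem T2_inj : T2 ∈ (Inj : Set Mp.{u}) := fun _ _ _ => rfl
theorem T3_inj : T3 ∈ (Inj : Set Mp.{u}) := fun _ _ _ => rfl
theorem T4_inj : T4 ∈ (Inj : Set Mp.{u}) := fun _ _ _ => rfl
theorem T5_inj : T5 ∈ (Inj : Set Mp.{u}) := fun _ _ _ => rfl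

theorem T5_mem_of_clopen {i : Mp.{u}} (hi : i ∈ l R) {b0 : i.B} (hb : b0 ∉ range i.f)
    (hc : IsClopen (range i.f)) : T5 ∈ l R := by
  intro q hq
  refine lifts_mpl.2 ?_
  intro a b ha hb' hab
  obtain ⟨s, hs, hsa, hsb⟩ := hi q hq (fun _ => a PUnit.unit) (ind (range i.f) (b Two.o) (b Two.i))
    continuous_const (continuous_ind_clopen hc _ _) (by
      intro c
      rw [ind_of_mem (mem_range_self c)]
      exact hab PUnit.unit)
  refine ⟨fromTwo (a PUnit.unit) (s b0), continuous_bot, fun _ => rfl, ?_⟩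
  rintro (_ | _)
  · exact hab PUnit.unit
  · change q.f (s b0) = _
    rw [hsb, ind_of_not_mem hb]

theorem NL_mem (hS : ¬ l R ⊆ Surj) (hI : l R ⊆ Init)
    (hH : T2 ∉ l R → T3 ∉ l R → T4 ∉ l R → ∀ p ∈ l R, IsOpen (range p.f)) :
    ∃ N ∈ FiveN, NL (l R) = N := by
  by_cases h2 : T2 ∈ l R
  · refine ⟨Surj, Or.inl rfl, ?_⟩
    apply Subset.antisymm
    · rw [← l_T2]
      exact NL_sub h2 hI T2_inj
    · intro k hk p _ v _ hv d
      obtain ⟨c, rfl⟩ := hk d
      exact hv c
  by_cases h3 : T3 ∈ l R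
  · by_cases h4 : T4 ∈ l R
    · refine ⟨Den ∩ CoDen, Or.inr (Or.inl rfl), ?_⟩
      apply Subset.antisymm
      · apply subset_inter
        · rw [← l_T3]
          exact NL_sub h3 hI T3_inj
        · rw [← l_T4]
          exact NL_sub h4 hI T4_inj
      · rintro k ⟨hk1, hk2⟩ p hp v hvc hv d
        by_contra hd
        rcases sep2 h2 hp hd with ⟨F, hF, hr, hdF⟩ | ⟨O, hO, hr, hdO⟩
        · have h := hk1 (v ⁻¹' F) (hF.preimage hvc) (by
            rintro _ ⟨c, rfl⟩
            exact hr (hv c))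
          apply hdF
          have h5 : d ∈ v ⁻¹' F := by
            rw [h]
            exact mem_univ _
          exact h5
        · have h := hk2 (v ⁻¹' O) (hO.preimage hvc) (by
            rintro _ ⟨c, rfl⟩
            exact hr (hv c))
          apply hdO
          have h5 : d ∈ v ⁻¹' O := by
            rw [h]
            exact mem_univ _
          exact h5
    · refine ⟨Den, Or.inr (Or.inr (Or.inl rfl)), ?_⟩
      apply Subset.antisymm
      · rw [← l_T3]
        exact NL_sub h3 hI T3_inj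
      · rintro k hk1 p hp v hvc hv d
        by_contra hd
        obtain ⟨F, hF, hr, hdF⟩ := sep24 h2 h4 hp hd
        have h := hk1 (v ⁻¹' F) (hF.preimage hvc) (by
          rintro _ ⟨c, rfl⟩
          exact hr (hv c))
        apply hdF
        have h5 : d ∈ v ⁻¹' F := by
          rw [h]
          exact mem_univ _
        exact h5
  · by_cases h4 : T4 ∈ l R
    · refine ⟨CoDen, Or.inr (Or.inr (Or.inr (Or.inl rfl))), ?_⟩
      apply Subset.antisymm
      · rw [← l_T4]
        exact NL_sub h4 hI T4_inj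
      · rintro k hk1 p hp v hvc hv d
        by_contra hd
        obtain ⟨F, hF, hr, hdF⟩ := sep23 h2 h3 hp hd
        have h := hk1 (v ⁻¹' F) (hF.preimage hvc) (by
          rintro _ ⟨c, rfl⟩
          exact hr (hv c))
        apply hdF
        have h5 : d ∈ v ⁻¹' F := by
          rw [h]
          exact mem_univ _
        exact h5
    · refine ⟨Pi0, Or.inr (Or.inr (Or.inr (Or.inr rfl))), ?_⟩
      have hclopen : ∀ p ∈ l R, IsClopen (range p.f) := fun p hp =>
        ⟨isClosed_range24 h2 h4 hp, hH h2 h3 h4 p hp⟩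
      apply Subset.antisymm
      · rw [not_subset] at hS
        obtain ⟨i, hi, hni⟩ := hS
        have : ∃ b, b ∉ range i.f := by
          by_contra hcon
          push Not at hcon
          exact hni hcon
        obtain ⟨b0, hb0⟩ := this
        rw [← l_T5]
        exact NL_sub (T5_mem_of_clopen hi hb0 (hclopen i hi)) hI T5_inj
      · rintro k hk1 p hp v hvc hv d
        have h := hk1 (v ⁻¹' range p.f) ((hclopen p hp).preimage hvc) (by
          rintro _ ⟨c, rfl⟩
          exact hv c)
        have h5 : d ∈ v ⁻¹' range p.f := by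
          rw [h]
          exact mem_univ _
        exact h5

end

/-- the ten classes -/
def NM : Set (Set Mp.{u}) := FiveN ∪ (fun N => Inj ∩ N) '' FiveN

/-- the standard classes -/
def Std : Set (Set Mp.{u}) :=
  {univ, Iso, Quot', Inj, AD, Final, SI, r SI, r {T8}, l (r {T8})} ∪ NM ∪ r '' NM ∪
    (fun P => r (r P)) '' NM ∪ (fun P => l (r (r P))) '' NM

theorem l_eq_univ {L : Set Mp.{u}} (h : L ⊆ Iso) : l L = univ := by
  apply eq_univ_of_forall
  intro k p hp
  have hp' := h hp
  exact NL_lifts hp'.2 (Or.inr hp'.1.1) (fun v _ _ d => hp'.1.2 (v d))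

theorem iso_lifts {k : Mp.{u}} (h : k ∈ Iso) (p : Mp.{u}) : Lifts k p := by
  intro a b ha hb hab
  have h1 : Function.Injective k.f := h.1.1
  have h2 : Function.Surjective k.f := h.1.2
  choose σ hσ using h2
  have hσ' : ∀ c, σ (k.f c) = c := fun c => h1 (hσ _)
  have hσc : Continuous σ := cont_of_init h.2 continuous_id hσ
  refine ⟨fun d => a (σ d), ha.comp hσc, fun c => ?_, fun d => ?_⟩
  · change a (σ (k.f c)) = a c
    rw [hσ']
  · change p.f (a (σ d)) = b d
    rw [hab, hσ]

theorem iso_subset_l (L : Set Mp.{u}) : Iso ⊆ l L := fun _ hk p _ => iso_lifts hk p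

/-- the result for left classes -/
theorem lemA (R : Set Mp.{u})
    (hH : ¬ l R ⊆ Surj → l R ⊆ Init → T2 ∉ l R → T3 ∉ l R → T4 ∉ l R →
      ∀ p ∈ l R, IsOpen (range p.f)) : l (l R) ∈ Std := by
  by_cases hS : l R ⊆ Surj
  · by_cases hJ : l R ⊆ Inj
    · by_cases hI : l R ⊆ Init
      · have : l (l R) = univ := l_eq_univ fun p hp => ⟨⟨hJ hp, hS hp⟩, hI hp⟩
        rw [this]
        simp [Std]
      · have : l (l R) = Final := by
          apply Subset.antisymm (final_of_not_init hI)
          exact finall.trans (l_anti (subset_inter hJ hS))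
        rw [this]
        simp [Std]
    · have hinj : l (l R) ⊆ Inj := inj_of_T1 (T1_of_not_inj hJ)
      by_cases hI : l R ⊆ Init
      · have : l (l R) = Inj := by
          apply Subset.antisymm hinj
          exact injl.trans (l_anti (subset_inter hS hI))
        rw [this]
        simp [Std]
      · have : l (l R) = AD := by
          apply Subset.antisymm (subset_inter hinj (final_of_not_init hI))
          exact adl.trans (l_anti hS)
        rw [this]
        simp [Std]
  · by_cases hI : l R ⊆ Init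
    · obtain ⟨N, hN, hN'⟩ := NL_mem hS hI (hH hS hI)
      by_cases hJ : l R ⊆ Inj
      · rw [l_eq_NL hI hJ, hN']
        exact Or.inl (Or.inl (Or.inl (Or.inr (Or.inl hN))))
      · rw [l_eq_NL' hI (T1_of_not_inj hJ), hN']
        exact Or.inl (Or.inl (Or.inl (Or.inr (Or.inr ⟨N, hN, rfl⟩))))
    · have hf := final_of_not_init hI
      have hs : l (l R) ⊆ Surj := fun k hk => surj_of_final hS hk (hf hk)
      by_cases hJ : l R ⊆ Inj
      · have : l (l R) = Quot' := by
          apply Subset.antisymm (subset_inter hs hf)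
          exact quotl.trans (l_anti hJ)
        rw [this]
        simp [Std]
      · have hinj : l (l R) ⊆ Inj := inj_of_T1 (T1_of_not_inj hJ)
        have : l (l R) = Iso := by
          apply Subset.antisymm _ (iso_subset_l _)
          intro k hk
          refine ⟨⟨hinj hk, hs hk⟩, ?_⟩
          intro O hO
          refine ⟨k.f '' O, ?_, preimage_image_eq _ (hinj hk)⟩
          apply hf hk
          rw [preimage_image_eq _ (hinj hk)]
          exact hO
        rw [this]
        simp [Std]

end Pool.Agent.Helper70.LP
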