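import Pool.Agent.Helper70.LP.LemB

set_option autoImplicit false

open Set Filter Topology

universe u

namespace Pool.Agent.Helper70.LP

/-- the type `G` with an arbitrary topology -/
structure Wrap (G : Type u) : Type u where
  val : G

theorem rBij_sub : r (Bij : Set Mp.{u}) ⊆ Init := by
  intro p hp O hO
  letI : TopologicalSpace (Wrap p.A) := TopologicalSpace.induced (fun g => p.f g.val) inferInstance
  have hc : Continuous (fun g : Wrap p.A => p.f g.val) := continuous_induced_dom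
  have hc2 : Continuous (fun g : p.A => (Wrap.mk g : Wrap p.A)) := by
    rw [continuous_induced_rng]
    exact p.cont
  have hbij : mp (fun g : p.A => (Wrap.mk g : Wrap p.A)) hc2 ∈ (Bij : Set Mp.{u}) := by
    constructor
    · intro g g' h
      have h' : (Wrap.mk g : Wrap p.A) = Wrap.mk g' := h
      cases h'
      rfl
    · rintro ⟨g⟩
      exact ⟨g, rfl⟩
  obtain ⟨s, hs, hs1, -⟩ := lifts_mpl.1 (hp _ hbij) id (fun g => p.f g.val) continuous_id hc
    (fun _ => rfl)
  have h1 := hO.preimage hs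
  obtain ⟨O', hO', he⟩ := isOpen_induced_iff.1 h1
  refine ⟨O', hO', ?_⟩
  ext g
  have h2 : (Wrap.mk g : Wrap p.A) ∈ s ⁻¹' O ↔ p.f g ∈ O' := by
    rw [← he]
    exact Iff.rfl
  have h3 : s (Wrap.mk g) = g := hs1 g
  rw [mem_preimage, h3] at h2
  exact h2.symm

theorem rBij : r (Bij : Set Mp.{u}) = Init := by
  apply Subset.antisymm rBij_sub
  intro p hp k hk
  exact NL_lifts hp (Or.inl hk.1) (fun v _ hv d => by
    obtain ⟨c, rfl⟩ := hk.2 d
    exact hv c)

theorem T9_surj : T9 ∈ (Surj : Set Mp.{u}) := fun _ => ⟨Two.o, rfl⟩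
theorem T8_surj : T8 ∈ (Surj : Set Mp.{u}) := fun _ => ⟨SS.o, rfl⟩
theorem T1_surj : T1 ∈ (Surj : Set Mp.{u}) := fun _ => ⟨JJ.o, rfl⟩
theorem T6_inj : T6 ∈ (Inj : Set Mp.{u}) := fun x => x.elim
theorem T7_inj : T7 ∈ (Inj : Set Mp.{u}) := by
  rintro (_ | _) (_ | _) h
  · rfl
  · cases h
  · cases h
  · rfl
theorem T7_surj : T7 ∈ (Surj : Set Mp.{u}) := by
  rintro (_ | _)
  · exact ⟨SS.o, rfl⟩
  · exact ⟨SS.i, rfl⟩
theorem T11_inj : T11 ∈ (Inj : Set Mp.{u}) := by
  rintro (_ | _) (_ | _) h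
  · rfl
  · cases h
  · cases h
  · rfl

theorem T1_init : T1 ∈ (Init : Set Mp.{u}) := by
  intro O hO
  rcases (TopologicalSpace.isOpen_top_iff O).1 hO with rfl | rfl
  · exact ⟨∅, isOpen_empty, rfl⟩
  · exact ⟨univ, isOpen_univ, rfl⟩

theorem rT9 : r {T9.{u}} = Inj := by
  ext p
  constructor
  · intro h
    exact lifts_T9.1 (h _ rfl)
  · rintro h k rfl
    exact lifts_T9.2 h

theorem rT6 : r {T6.{u}} = Surj := by
  ext p
  constructor
  · intro h
    exact lifts_T6.1 (h _ rfl)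
  · rintro h k rfl
    exact lifts_T6.2 h

theorem rSurj_sub : r (Surj : Set Mp.{u}) ⊆ Inj := by
  rw [← rT9]
  exact r_single T9_surj

theorem rSurj : r (Surj : Set Mp.{u}) = Inj ∩ Init := by
  apply Subset.antisymm
  · apply subset_inter rSurj_sub
    exact (r_anti inter_subset_right).trans rBij_sub
  · rintro p ⟨hp1, hp⟩ k hk
    exact NL_lifts hp (Or.inr hp1) (fun v _ hv d => by
      obtain ⟨c, rfl⟩ := hk d
      exact hv c)

/-- the map from the empty space -/
def fromE (H : Type u) [TopologicalSpace H] : Mp.{u} :=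
  mp (fun x : PEmpty.{u + 1} => (x.elim : H)) (by fun_prop)

theorem fromE_mem (H : Type u) [TopologicalSpace H] : fromE H ∈ r (Pi0 : Set Mp.{u}) := by
  intro k hk
  refine lifts_mp.2 ?_
  intro a b ha hb hab
  have h1 := hk ∅ isClopen_empty (by
    rintro _ ⟨c, rfl⟩
    exact (a c).elim)
  have h2 : ∀ d : k.B, False := by
    intro d
    have : d ∈ (∅ : Set k.B) := by
      rw [h1]
      exact mem_univ _
    exact this
  refine ⟨fun d => (h2 d).elim, ?_, fun c => (a c).elim, fun d => (h2 d).elim⟩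
  rw [continuous_def]
  intro O _
  have : (fun d => (h2 d).elim : k.B → PEmpty.{u + 1}) ⁻¹' O = ∅ :=
    eq_empty_of_forall_notMem fun d _ => h2 d
  rw [this]
  exact isOpen_empty

theorem section_of {q : Mp.{u}} (hq : q ∈ r (r (Pi0 : Set Mp.{u}))) :
    ∃ σ : q.B → q.A, Continuous σ ∧ ∀ h, q.f (σ h) = h := by
  obtain ⟨s, hs, -, hs2⟩ := lifts_mpl.1 (hq _ (fromE_mem q.B)) (fun x => x.elim) id
    (by fun_prop) continuous_id (fun x => x.elim)
  exact ⟨s, hs, hs2⟩

end Pool.Agent.Helper70.LP
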