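import Pool.Agent.Helper70.LP.SpaceW

set_option autoImplicit false

open Set Filter Topology

universe u

namespace Pool.Agent.Helper70.LP

theorem rrPi0_sub : r {T8.{u}} ⊆ r (r (r Pi0)) := by
  intro p hp q hq
  have hp8 := lifts_T8.1 (hp _ rfl)
  intro a b ha hb hab
  obtain ⟨σ, hσ, hσ2⟩ := section_of hq
  have hfac : ∀ g, a (σ (q.f g)) = a g := by
    intro g
    obtain ⟨g', hg', h1, h2⟩ := gen_of hq g (σ (q.f g)) (q.f g) (specializes_refl _)
      (by rw [hσ2])
    have h3 : a g = a g' := hp8 _ _ (h1.map ha) (by rw [hab, hab, hg'])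
    have h4 : a (σ (q.f g)) = a g' := hp8 _ _ (h2.map ha) (by rw [hab, hab, hg', hσ2])
    rw [h3, h4]
  refine ⟨fun h => a (σ h), ha.comp hσ, hfac, ?_⟩
  intro h
  change p.f (a (σ h)) = b h
  rw [hab, hσ2]

theorem T8_mem_rr {P : Set Mp.{u}} (h : Bij ⊆ P) : T8 ∈ r (r P) := by
  intro p hp
  have h1 : p ∈ (Init : Set Mp.{u}) := rBij_sub (r_anti h hp)
  rw [← l_T8] at h1
  exact h1 _ rfl

theorem rrr_eq {P : Set Mp.{u}} (h1 : Bij ⊆ P) (h2 : P ⊆ Pi0) : r (r (r P)) = r {T8} := by
  apply Subset.antisymm (r_single (T8_mem_rr h1))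
  exact rrPi0_sub.trans (r_anti (r_anti (r_anti h2)))

theorem T3_mem_lrr {P : Set Mp.{u}} (h2 : P ⊆ Pi0) : T3 ∈ l (r (r P)) := by
  intro q hq
  have hq' : q ∈ r (r (Pi0 : Set Mp.{u})) := r_anti (r_anti h2) hq
  rw [lifts_T3]
  intro g h1 hsp
  obtain ⟨g', hg', h3, -⟩ := gen_of hq' g g h1 hsp hsp
  exact ⟨g', h3, hg'⟩

/-- the left negation of a double right negation of one of the ten classes -/
theorem llrr_mem {P : Set Mp.{u}} (h2 : P ⊆ Pi0) : l (l (r (r P))) ∈ Std := by
  apply lemA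
  intro _ _ _ h3
  exact absurd (T3_mem_lrr h2) h3

/-! ### basic computations -/

theorem T6_notMem_surj : T6 ∉ (Surj : Set Mp.{u}) := by
  intro h
  obtain ⟨x, -⟩ := h PUnit.unit
  exact x.elim

theorem rT1_eq : r (SI : Set Mp.{u}) = r {T1} := by
  apply Subset.antisymm
  · exact r_single ⟨T1_surj, T1_init⟩
  · intro p hp k hk
    have hp1 := lifts_T1.1 (hp _ rfl)
    have hk1 : Function.Surjective k.f := hk.1
    intro a b ha hb hab
    choose σ hσ using hk1
    have hfac : ∀ c, a (σ (k.f c)) = a c := by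
      intro c
      apply hp1
      · have h1 : Inseparable (σ (k.f c)) c := by
          rw [inseparable_iff_forall_isOpen]
          intro O hO
          obtain ⟨O', hO', he⟩ := hk.2 O hO
          rw [← he, mem_preimage, mem_preimage, hσ]
        exact h1.map ha
      · rw [hab, hab, hσ]
    refine ⟨fun d => a (σ d), ?_, hfac, fun d => ?_⟩
    · rw [continuous_def]
      intro O hO
      obtain ⟨O', hO', he⟩ := hk.2 _ (hO.preimage ha)
      have : (fun d => a (σ d)) ⁻¹' O = O' := by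
        ext d
        have h1 : σ d ∈ k.f ⁻¹' O' ↔ σ d ∈ a ⁻¹' O := by rw [he]
        rw [mem_preimage, hσ] at h1
        exact h1.symm
      rw [this]
      exact hO'
    · change p.f (a (σ d)) = b d
      rw [hab, hσ]

theorem rT1_inj : (Inj : Set Mp.{u}) ⊆ r {T1} := by
  rintro p hp k rfl
  rw [lifts_T1]
  intro g0 g1 _ h
  exact hp h

theorem rT8_inj : (Inj : Set Mp.{u}) ⊆ r {T8} := by
  rintro p hp k rfl
  rw [lifts_T8]
  intro g0 g1 _ h
  exact hp h

theorem discrete_of_spec {x y : Two.{u}} (h : x ⤳ y) : y = x := by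
  rw [specializes_iff_eq] at h
  exact h.symm

theorem T9_mem8 : T9 ∈ r {T8.{u}} := by
  rintro k rfl
  rw [lifts_T8]
  intro g0 g1 h _
  exact discrete_of_spec h

theorem T9_mem1 : T9 ∈ r {T1.{u}} := by
  rintro k rfl
  rw [lifts_T1]
  intro g0 g1 h _
  exact discrete_of_spec h.symm.specializes

theorem T8_mem1 : T8 ∈ r {T1.{u}} := by
  rintro k rfl
  rw [lifts_T1]
  intro g0 g1 h _
  have h' : Inseparable (X := SS.{u}) g0 g1 := h
  rw [inseparable_iff_forall_isOpen] at h'
  have h1 := h' {SS.i} (by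
    rw [SS.isOpen_iff]
    intro h
    cases h)
  change (g0 : SS.{u}) = g1
  revert h1
  cases (g0 : SS.{u}) <;> cases (g1 : SS.{u}) <;> simp

theorem rInj : r (Inj : Set Mp.{u}) = SI := by
  apply Subset.antisymm
  · apply subset_inter
    · rw [← rT6]
      exact r_single T6_inj
    · exact (r_anti inter_subset_left).trans rBij_sub
  · rw [← subset_l_iff]
    exact injl

theorem lSI : l (SI : Set Mp.{u}) = Inj := by
  apply Subset.antisymm _ injl
  rw [← l_T1]
  exact l_single ⟨T1_surj, T1_init⟩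

theorem si_inter_inj : (SI ∩ Inj : Set Mp.{u}) ⊆ Iso := fun _ h => ⟨⟨h.2, h.1.1⟩, h.1.2⟩

theorem iso_subset_r (L : Set Mp.{u}) : Iso ⊆ r L := by
  intro p hp k _
  exact NL_lifts hp.2 (Or.inr hp.1.1) (fun v _ _ d => hp.1.2 (v d))

theorem r_iso_of {P : Set Mp.{u}} (h1 : Inj ⊆ P) (h2 : T9 ∈ P) : r P = Iso := by
  apply Subset.antisymm _ (iso_subset_r P)
  intro p hp
  apply si_inter_inj
  constructor
  · rw [← rInj]
    exact r_anti h1 hp
  · rw [← rT9]
    exact r_single h2 hp

theorem rrSI : r (r (SI : Set Mp.{u})) = Iso := by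
  rw [rT1_eq]
  exact r_iso_of rT1_inj T9_mem1

theorem rrT8 : r (r {T8.{u}}) = Iso := r_iso_of rT8_inj T9_mem8

theorem r_univ : r (univ : Set Mp.{u}) = Iso := r_iso_of (subset_univ _) (mem_univ _)

theorem r_Iso : r (Iso : Set Mp.{u}) = univ :=
  eq_univ_of_forall fun p _ hk => iso_lifts hk p

theorem lrSI : l (r (SI : Set Mp.{u})) = SI := by
  apply Subset.antisymm _ (subset_lr SI)
  rw [rT1_eq]
  apply subset_inter
  · rw [← l_T2]
    exact l_single (rT1_inj T2_inj)
  · rw [← l_T8]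
    exact l_single T8_mem1

theorem l_univ : l (univ : Set Mp.{u}) = Iso := by
  apply Subset.antisymm _ (iso_subset_l _)
  intro k hk
  obtain ⟨s, hs, hs1, hs2⟩ := hk k (mem_univ _) id id continuous_id continuous_id (fun _ => rfl)
  refine ⟨⟨?_, fun d => ⟨s d, hs2 d⟩⟩, ?_⟩
  · intro c c' h
    have h1 := hs1 c
    have h2 := hs1 c'
    rw [h] at h1
    exact h1.symm.trans h2
  · intro O hO
    refine ⟨s ⁻¹' O, hO.preimage hs, ?_⟩
    ext c
    rw [mem_preimage, mem_preimage, hs1]
    rfl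

theorem l_Iso : l (Iso : Set Mp.{u}) = univ := l_eq_univ Subset.rfl

theorem l_Inj : l (Inj : Set Mp.{u}) = Quot' := by
  apply Subset.antisymm _ quotl
  apply subset_inter
  · rw [← l_T2]
    exact l_single T2_inj
  · intro k hk
    exact final_of_T7 (hk _ T7_inj)

theorem l_Surj : l (Surj : Set Mp.{u}) = AD := by
  apply Subset.antisymm _ adl
  apply subset_inter
  · exact inj_of_T1 T1_surj
  · intro k hk
    exact final_of_T7 (hk _ T7_surj)

theorem l_Bij : l (Bij : Set Mp.{u}) = Final := by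
  apply Subset.antisymm _ finall
  intro k hk
  exact final_of_T7 (hk _ ⟨T7_inj, T7_surj⟩)

theorem isOpen_range_of_final {p : Mp.{u}} (hp : p ∈ (Final : Set Mp.{u})) :
    IsOpen (range p.f) := by
  apply hp
  rw [preimage_range]
  exact isOpen_univ

theorem T9_final : T9 ∈ (Final : Set Mp.{u}) := by
  intro T _
  exact isOpen_discrete (α := PUnit.{u + 1}) T

theorem T6_final : T6 ∈ (Final : Set Mp.{u}) := by
  intro T _
  exact isOpen_discrete (α := PUnit.{u + 1}) T

theorem r_Quot : r (Quot' : Set Mp.{u}) = Inj := by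
  apply Subset.antisymm
  · rw [← rT9]
    exact r_single ⟨T9_surj, T9_final⟩
  · rw [← subset_l_iff]
    exact quotl

theorem r_AD : r (AD : Set Mp.{u}) = Surj := by
  apply Subset.antisymm
  · rw [← rT6]
    exact r_single ⟨T6_inj, T6_final⟩
  · rw [← subset_l_iff]
    exact adl

theorem r_Final : r (Final : Set Mp.{u}) = Bij := by
  apply Subset.antisymm
  · apply subset_inter
    · rw [← rT9]
      exact r_single T9_final
    · rw [← rT6]
      exact r_single T6_final
  · rw [← subset_l_iff]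
    exact finall

end Pool.Agent.Helper70.LP
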