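import Pool.Agent.Helper70.LP.Closure

set_option autoImplicit false

open Set Filter Topology

universe u

namespace Pool.Agent.Helper70.LP

/-- a `T1` space over a given space -/
inductive TT (H : Type u) : Type u
  | ctr : H → TT H
  | iso : H → H → ℕ → TT H

def TTpr {H : Type u} : TT H → H
  | .ctr x => x
  | .iso _ d _ => d

instance (H : Type u) [TopologicalSpace H] : TopologicalSpace (TT H) where
  IsOpen O := ∀ x : H, TT.ctr x ∈ O → ∃ U : Set H, IsOpen U ∧ x ∈ U ∧
    ∀ d ∈ U, {n : ℕ | TT.iso x d n ∉ O}.Finite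
  isOpen_univ := by
    intro x _
    refine ⟨univ, isOpen_univ, mem_univ _, fun d _ => ?_⟩
    have : {n : ℕ | TT.iso x d n ∉ (univ : Set (TT H))} = ∅ :=
      eq_empty_of_forall_notMem fun n h => h (mem_univ _)
    rw [this]
    exact finite_empty
  isOpen_inter := by
    intro O O' h h' x hx
    obtain ⟨U, hU, hxU, hfin⟩ := h x hx.1
    obtain ⟨U', hU', hxU', hfin'⟩ := h' x hx.2
    refine ⟨U ∩ U', hU.inter hU', ⟨hxU, hxU'⟩, ?_⟩
    intro d hd
    apply ((hfin d hd.1).union (hfin' d hd.2)).subset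
    intro n hn
    by_contra hcon
    rw [mem_union, not_or] at hcon
    exact hn ⟨not_not.1 hcon.1, not_not.1 hcon.2⟩
  isOpen_sUnion := by
    rintro S hS x ⟨O, hO, hx⟩
    obtain ⟨U, hU, hxU, hfin⟩ := hS O hO x hx
    refine ⟨U, hU, hxU, ?_⟩
    intro d hd
    apply (hfin d hd).subset
    intro n hn hn'
    exact hn ⟨O, hO, hn'⟩

section
variable {H : Type u} [TopologicalSpace H]

theorem TT_isOpen_iff {O : Set (TT H)} : IsOpen O ↔
    ∀ x : H, TT.ctr x ∈ O → ∃ U : Set H, IsOpen U ∧ x ∈ U ∧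
    ∀ d ∈ U, {n : ℕ | TT.iso x d n ∉ O}.Finite := Iff.rfl

theorem continuous_TTpr : Continuous (TTpr : TT H → H) := by
  rw [continuous_def]
  intro T hT
  rw [TT_isOpen_iff]
  intro x hx
  refine ⟨T, hT, hx, ?_⟩
  intro d hd
  have : {n : ℕ | TT.iso x d n ∉ TTpr ⁻¹' T} = ∅ := by
    apply eq_empty_of_forall_notMem
    intro n hn
    exact hn hd
  rw [this]
  exact finite_empty

theorem TTpr_final {T : Set H} (h : IsOpen (TTpr ⁻¹' T : Set (TT H))) : IsOpen T := by
  rw [TT_isOpen_iff] at h
  rw [isOpen_iff_forall_mem_open]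
  intro x hx
  obtain ⟨U, hU, hxU, hfin⟩ := h x hx
  refine ⟨U, ?_, hU, hxU⟩
  intro d hd
  obtain ⟨n, hn⟩ := (hfin d hd).exists_notMem
  exact not_not.1 hn

theorem TT_eq_of_spec {x y : TT H} (h : x ⤳ y) : x = y := by
  by_contra hne
  have ho : IsOpen ({x}ᶜ : Set (TT H)) := by
    rw [TT_isOpen_iff]
    intro z _
    refine ⟨univ, isOpen_univ, mem_univ _, fun d _ => ?_⟩
    apply Set.Subsingleton.finite
    intro n hn m hm
    have h1 : TT.iso z d n = x := not_not.1 hn
    have h2 : TT.iso z d m = x := not_not.1 hm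
    rw [← h2] at h1
    cases h1
    rfl
  exact h.mem_open ho (fun h' => hne (mem_singleton_iff.1 h').symm) rfl

theorem TT_isOpen_iso (x d : H) (n : ℕ) : IsOpen ({TT.iso x d n} : Set (TT H)) := by
  rw [TT_isOpen_iff]
  intro z hz
  cases hz

/-- the isolated points of a center -/
def TTiso (x : H) : Set (TT H) := {t | ∃ d n, t = TT.iso x d n}

theorem TT_isOpen_TTiso (x : H) : IsOpen (TTiso x : Set (TT H)) := by
  rw [TT_isOpen_iff]
  rintro z ⟨d, n, h⟩
  cases h

theorem TT_isOpen_star (x : H) : IsOpen (insert (TT.ctr x) (TTiso x) : Set (TT H)) := by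
  rw [TT_isOpen_iff]
  rintro z (h | ⟨d, n, h⟩)
  · cases h
    refine ⟨univ, isOpen_univ, mem_univ _, fun d _ => ?_⟩
    have : {n : ℕ | TT.iso x d n ∉ (insert (TT.ctr x) (TTiso x) : Set (TT H))} = ∅ := by
      apply eq_empty_of_forall_notMem
      intro n hn
      exact hn (Or.inr ⟨d, n, rfl⟩)
    rw [this]
    exact finite_empty
  · cases h

end

/-- a discrete copy -/
structure Dsc (A : Type u) : Type u where
  val : A

instance (A : Type u) : TopologicalSpace (Dsc A) := ⊥
instance (A : Type u) : DiscreteTopology (Dsc A) := ⟨rfl⟩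

/-- the bijection from the discrete copy -/
def TTd (H : Type u) [TopologicalSpace H] : Mp.{u} :=
  mp (fun t : Dsc (TT H) => t.val) continuous_of_discreteTopology

theorem TTd_cont {Z : Set Mp.{u}} (h : ∀ (H : Type u) [TopologicalSpace H], TTd H ∈ Z)
    {p : Mp.{u}} (hp : p ∈ r Z) {H : Type u} [TopologicalSpace H] {w : H → p.B}
    (hw : Continuous w) (v : TT H → p.A) (hv : ∀ t, p.f (v t) = w (TTpr t)) :
    Continuous v := by
  obtain ⟨s, hs, hs1, -⟩ := lifts_mpl.1 (hp _ (h H)) (fun t => v t.val) (fun t => w (TTpr t))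
    continuous_of_discreteTopology (hw.comp continuous_TTpr) (fun t => hv t.val)
  have : s = v := by
    funext t
    exact hs1 ⟨t⟩
  rw [← this]
  exact hs

theorem init_of_TT {Z : Set Mp.{u}} (h : ∀ (H : Type u) [TopologicalSpace H], TTd H ∈ Z) :
    r Z ⊆ Init := by
  intro p hp O hO
  have hσex : ∀ x : range p.f, ∃ g, p.f g = x.1 := fun x => x.2
  choose σ hσ using hσex
  have hval : Continuous (Subtype.val : range p.f → p.B) := continuous_subtype_val
  have hsat : ∀ g ∈ O, ∀ g', p.f g = p.f g' → g' ∈ O := by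
    intro g hg g' he
    by_contra hg'
    let x : range p.f := ⟨p.f g, mem_range_self g⟩
    classical
    let v : TT (range p.f) → p.A := fun t =>
      if t = TT.ctr x then g else if TTpr t = x then g' else σ (TTpr t)
    have hv : ∀ t, p.f (v t) = (TTpr t).1 := by
      intro t
      by_cases h1 : t = TT.ctr x
      · simp only [v, h1, if_pos]
        rfl
      · by_cases h2 : TTpr t = x
        · simp only [v, h1, h2, if_pos, if_false]
          exact he.symm
        · simp only [v, h1, h2, if_false]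
          exact hσ _
    have hc : Continuous v := TTd_cont h hp hval v hv
    have h1 := TT_isOpen_iff.1 (hO.preimage hc) x (by
      have : v (TT.ctr x) = g := by simp [v]
      rw [mem_preimage, this]
      exact hg)
    obtain ⟨U, -, hxU, hfin⟩ := h1
    obtain ⟨n, hn⟩ := (hfin x hxU).exists_notMem
    apply hn
    have : v (TT.iso x x n) = g' := by
      have h2 : TTpr (TT.iso x x n) = x := rfl
      simp [v, h2]
    intro h3
    rw [mem_preimage, this] at h3
    exact hg' h3
  have hc : Continuous (fun t : TT (range p.f) => σ (TTpr t)) :=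
    TTd_cont h hp hval _ (fun t => hσ _)
  have h1 : IsOpen {x : range p.f | σ x ∈ O} := TTpr_final (hO.preimage hc)
  obtain ⟨O', hO', he⟩ := isOpen_induced_iff.1 h1
  refine ⟨O', hO', ?_⟩
  ext g
  have h2 : (⟨p.f g, mem_range_self g⟩ : range p.f) ∈ Subtype.val ⁻¹' O' ↔
      (⟨p.f g, mem_range_self g⟩ : range p.f) ∈ {x : range p.f | σ x ∈ O} := by rw [he]
  have h3 : g ∈ p.f ⁻¹' O' ↔ σ ⟨p.f g, mem_range_self g⟩ ∈ O := h2
  rw [h3]
  have h4 := hσ ⟨p.f g, mem_range_self g⟩
  exact ⟨fun h => hsat _ h _ h4, fun h => hsat _ h _ h4.symm⟩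

/-- a right negation inside `Init` of a class with a non-injective map is inside `Inj` -/
theorem inj_of_noninj {Z : Set Mp.{u}} (h1 : ¬ Z ⊆ Inj) (h2 : r Z ⊆ Init) : r Z ⊆ Inj := by
  rw [not_subset] at h1
  obtain ⟨k, hk, hnk⟩ := h1
  have : ∃ c c', k.f c = k.f c' ∧ c ≠ c' := by
    by_contra hcon
    push Not at hcon
    exact hnk fun a a' h => hcon a a' h
  obtain ⟨c, c', he, hne⟩ := this
  intro p hp g g' hg
  have hin : Inseparable g g' := by
    rw [inseparable_iff_forall_isOpen]
    intro O hO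
    obtain ⟨O', -, hO''⟩ := h2 hp O hO
    rw [← hO'', mem_preimage, mem_preimage, hg]
  obtain ⟨s, -, hs, -⟩ := hp k hk (ind {c} g g') (fun _ => p.f g)
    (continuous_ind_insep _ hin) continuous_const (by
      intro x
      by_cases hx : x ∈ ({c} : Set k.A)
      · rw [ind_of_mem hx]
      · rw [ind_of_not_mem hx, hg])
  have h3 := hs c
  have h4 := hs c'
  rw [ind_of_mem (mem_singleton c)] at h3
  rw [ind_of_not_mem (fun h => hne (mem_singleton_iff.1 h).symm)] at h4
  rw [← h3, ← h4, he]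

end Pool.Agent.Helper70.LP
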