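import Pool.Agent.Helper70.LP.Right

set_option autoImplicit false

open Set Filter Topology Cardinal

universe u

namespace Pool.Agent.Helper70.LP

/-- two points and many isolated points -/
inductive WW (G : Type u) : Type u
  | w : Two.{u} → WW G
  | k : Set (G ⊕ ℕ) → WW G

/-- small sets -/
def Small {G : Type u} (S : Set (Set (G ⊕ ℕ))) : Prop := #S ≤ #(G ⊕ ℕ)

theorem aleph0_le_G (G : Type u) : ℵ₀ ≤ #(G ⊕ ℕ) := by
  rw [mk_sum]
  simp

theorem Small.mono {G : Type u} {S T : Set (Set (G ⊕ ℕ))} (h : Small T) (hST : S ⊆ T) :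
    Small S := (mk_le_mk_of_subset hST).trans h

theorem Small.union {G : Type u} {S T : Set (Set (G ⊕ ℕ))} (hS : Small S) (hT : Small T) :
    Small (S ∪ T) := by
  refine (mk_union_le S T).trans ?_
  refine (add_le_add hS hT).trans ?_
  rw [add_eq_self (aleph0_le_G G)]

theorem small_singleton {G : Type u} (x : Set (G ⊕ ℕ)) : Small ({x} : Set (Set (G ⊕ ℕ))) := by
  unfold Small
  rw [mk_singleton]
  exact one_le_aleph0.trans (aleph0_le_G G)

theorem small_empty {G : Type u} : Small (∅ : Set (Set (G ⊕ ℕ))) := by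
  unfold Small
  simp

theorem Small.iUnion {G : Type u} (S : G → Set (Set (G ⊕ ℕ))) (h : ∀ g, Small (S g)) :
    Small (⋃ g, S g) := by
  unfold Small
  refine (mk_iUnion_le_sum_mk).trans ?_
  refine (sum_le_sum _ (fun _ => #(G ⊕ ℕ)) h).trans ?_
  rw [sum_const']
  have h1 : #G ≤ #(G ⊕ ℕ) := mk_le_of_injective (f := Sum.inl) Sum.inl_injective
  refine (mul_le_mul_left h1 _).trans ?_
  rw [mul_eq_self (aleph0_le_G G)]

theorem not_small_univ {G : Type u} : ¬ Small (univ : Set (Set (G ⊕ ℕ))) := by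
  unfold Small
  rw [mk_univ, mk_set, not_le]
  exact cantor _

instance (G : Type u) : TopologicalSpace (WW G) where
  IsOpen O := ∀ x : Two.{u}, WW.w x ∈ O → Small {κ : Set (G ⊕ ℕ) | WW.k κ ∉ O}
  isOpen_univ := by
    intro x _
    have : {κ : Set (G ⊕ ℕ) | WW.k κ ∉ (univ : Set (WW G))} = ∅ :=
      eq_empty_of_forall_notMem fun κ h => h (mem_univ _)
    rw [this]
    exact small_empty
  isOpen_inter := by
    intro O O' h h' x hx
    refine ((h x hx.1).union (h' x hx.2)).mono ?_
    intro κ hκ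
    by_contra hcon
    rw [mem_union, not_or] at hcon
    exact hκ ⟨not_not.1 hcon.1, not_not.1 hcon.2⟩
  isOpen_sUnion := by
    rintro S hS x ⟨O, hO, hx⟩
    refine (hS O hO x hx).mono ?_
    intro κ hκ hκ'
    exact hκ ⟨O, hO, hκ'⟩

theorem WW_isOpen_iff {G : Type u} {O : Set (WW G)} : IsOpen O ↔
    ∀ x : Two.{u}, WW.w x ∈ O → Small {κ : Set (G ⊕ ℕ) | WW.k κ ∉ O} := Iff.rfl

/-- the inclusion of the two points -/
def WWin (G : Type u) : Mp.{u} := mp (fun x : Two.{u} => (WW.w x : WW G)) continuous_bot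

theorem WWin_mem (G : Type u) : WWin G ∈ r (Pi0 : Set Mp.{u}) := by
  intro k hk
  refine lifts_mp.2 ?_
  intro a b ha hb hab
  have hcl : ∀ κ : Set (G ⊕ ℕ), IsClopen ({WW.k κ}ᶜ : Set (WW G)) := by
    intro κ
    constructor
    · rw [isClosed_compl_iff, WW_isOpen_iff]
      intro x hx
      cases hx
    · rw [WW_isOpen_iff]
      intro x _
      refine (small_singleton κ).mono ?_
      intro κ' hκ'
      have h1 : (WW.k κ' : WW G) = WW.k κ := not_not.1 hκ'
      cases h1
      exact mem_singleton _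
  have hall : ∀ d, ∃ x, b d = WW.w x := by
    intro d
    cases hbd : b d with
    | w x => exact ⟨x, rfl⟩
    | k κ =>
      exfalso
      have h1 := hk _ ((hcl κ).preimage hb) (by
        rintro _ ⟨c, rfl⟩
        have h2 := hab c
        change b (k.f c) ≠ WW.k κ
        rw [← h2]
        intro h3
        cases h3)
      have h2 : d ∈ b ⁻¹' ({WW.k κ}ᶜ : Set (WW G)) := by
        rw [h1]
        exact mem_univ _
      exact h2 hbd
  choose s hs using hall
  refine ⟨s, ?_, ?_, fun d => (hs d).symm⟩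
  · rw [continuous_def]
    intro O _
    have h1 : IsOpen {e : WW G | ∀ x, e = WW.w x → x ∈ O} := by
      rw [WW_isOpen_iff]
      intro x _
      have : {κ : Set (G ⊕ ℕ) | WW.k κ ∉ {e : WW G | ∀ x, e = WW.w x → x ∈ O}} = ∅ := by
        apply eq_empty_of_forall_notMem
        intro κ hκ
        apply hκ
        intro x hx
        cases hx
      rw [this]
      exact small_empty
    have h2 : s ⁻¹' O = b ⁻¹' {e : WW G | ∀ x, e = WW.w x → x ∈ O} := by
      ext d
      constructor
      · intro h x hx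
        rw [hs d] at hx
        cases hx
        exact h
      · intro h
        exact h _ (hs d)
    rw [h2]
    exact h1.preimage hb
  · intro c
    have h1 := hs (k.f c)
    rw [← hab c] at h1
    have h2 : (WW.w (a c) : WW G) = WW.w (s (k.f c)) := h1
    cases h3 : a c <;> cases h4 : s (k.f c) <;> rw [h3, h4] at h2 <;> first | rfl | cases h2

/-- common generizations -/
theorem gen_of {q : Mp.{u}} (hq : q ∈ r (r (Pi0 : Set Mp.{u}))) (g0 g1 : q.A) (h : q.B)
    (h0 : h ⤳ q.f g0) (h1 : h ⤳ q.f g1) : ∃ g, q.f g = h ∧ g ⤳ g0 ∧ g ⤳ g1 := by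
  let v : WW q.A → q.B := fun e => match e with
    | .w x => q.f (fromTwo g0 g1 x)
    | .k _ => h
  have hv : Continuous v := by
    rw [continuous_def]
    intro O hO
    rw [WW_isOpen_iff]
    intro x hx
    have hh : h ∈ O := by
      cases x with
      | o => exact h0.mem_open hO hx
      | i => exact h1.mem_open hO hx
    have : {κ : Set (q.A ⊕ ℕ) | WW.k κ ∉ v ⁻¹' O} = ∅ :=
      eq_empty_of_forall_notMem fun κ hκ => hκ hh
    rw [this]
    exact small_empty
  obtain ⟨s, hs, hs1, hs2⟩ := lifts_mpl.1 (hq _ (WWin_mem q.A)) (fromTwo g0 g1) v continuous_bot hv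
    (fun _ => rfl)
  by_contra hcon
  push Not at hcon
  apply not_small_univ (G := q.A)
  have hcov : (univ : Set (Set (q.A ⊕ ℕ))) ⊆ ⋃ g : q.A, {κ | s (WW.k κ) = g} := by
    intro κ _
    exact mem_iUnion.2 ⟨s (WW.k κ), rfl⟩
  refine (Small.iUnion _ ?_).mono hcov
  intro g
  by_cases hg : ∃ κ, s (WW.k κ) = g
  · obtain ⟨κ, rfl⟩ := hg
    have hq1 : q.f (s (WW.k κ)) = h := hs2 _
    -- one of the two specializations fails
    have hex : ∃ x : Two.{u}, ¬ s (WW.k κ) ⤳ fromTwo g0 g1 x := by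
      by_cases h5 : s (WW.k κ) ⤳ g0
      · exact ⟨Two.i, hcon _ hq1 h5⟩
      · exact ⟨Two.o, h5⟩
    obtain ⟨x, hx⟩ := hex
    rw [specializes_iff_forall_open] at hx
    push Not at hx
    obtain ⟨O, hO, hxO, hnO⟩ := hx
    have h6 := WW_isOpen_iff.1 (hO.preimage hs) x (by
      rw [mem_preimage]
      have h7 : s (WW.w x) = fromTwo g0 g1 x := hs1 x
      rw [h7]
      exact hxO)
    refine h6.mono ?_
    intro κ' hκ' hin
    have h8 : s (WW.k κ') = s (WW.k κ) := hκ'
    rw [mem_preimage, h8] at hin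
    exact hnO hin
  · have : {κ | s (WW.k κ) = g} = ∅ := by
      apply eq_empty_of_forall_notMem
      intro κ hκ
      exact hg ⟨κ, hκ⟩
    rw [this]
    exact small_empty

end Pool.Agent.Helper70.LP
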