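import Pool.Agent.Helper70.LP.Basic

set_option autoImplicit false

open Set Filter Topology

universe u

namespace Pool.Agent.Helper70.LP

theorem continuous_SS_iff {G : Type*} [TopologicalSpace G] {f : SS.{u} → G} :
    Continuous f ↔ f SS.i ⤳ f SS.o := by
  constructor
  · intro h
    rw [specializes_iff_forall_open]
    intro s hs ho
    exact SS.isOpen_iff.1 (hs.preimage h) ho
  · intro h
    rw [continuous_def]
    intro s hs
    rw [SS.isOpen_iff]
    exact fun ho => h.mem_open hs ho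

theorem continuous_JJ_iff {G : Type*} [TopologicalSpace G] {f : JJ.{u} → G} :
    Continuous f ↔ Inseparable (f JJ.o) (f JJ.i) := by
  constructor
  · intro h
    have h1 : Inseparable JJ.o JJ.i := by
      rw [inseparable_iff_forall_isOpen]
      intro s hs
      rcases (TopologicalSpace.isOpen_top_iff s).1 hs with rfl | rfl <;> simp
    exact h1.map h
  · intro h
    rw [continuous_def]
    intro s hs
    have h1 := h.mem_open_iff hs
    by_cases ho : f JJ.o ∈ s
    · have : f ⁻¹' s = univ := by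
        apply eq_univ_of_forall
        rintro (_ | _)
        · exact ho
        · exact h1.1 ho
      rw [this]
      exact isOpen_univ
    · have : f ⁻¹' s = ∅ := by
        apply eq_empty_of_forall_notMem
        rintro (_ | _) h2
        · exact ho h2
        · exact ho (h1.2 h2)
      rw [this]
      exact isOpen_empty

/-- the map from `S` with given values -/
def fromS {G : Type*} (x y : G) : SS.{u} → G
  | SS.o => x
  | SS.i => y

def fromJ {G : Type*} (x y : G) : JJ.{u} → G
  | JJ.o => x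
  | JJ.i => y

def fromTwo {G : Type*} (x y : G) : Two.{u} → G
  | Two.o => x
  | Two.i => y

theorem continuous_fromS {G : Type*} [TopologicalSpace G] {x y : G} (h : y ⤳ x) :
    Continuous (fromS.{u} x y) := continuous_SS_iff.2 h

theorem continuous_fromJ {G : Type*} [TopologicalSpace G] {x y : G} (h : Inseparable x y) :
    Continuous (fromJ.{u} x y) := continuous_JJ_iff.2 h

def T1 : Mp.{u} := mp (fun _ : JJ.{u} => PUnit.unit.{u + 1}) continuous_const
def T2 : Mp.{u} := mp (fun _ : PUnit.{u + 1} => JJ.o.{u}) continuous_const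
def T3 : Mp.{u} := mp (fun _ : PUnit.{u + 1} => SS.o.{u}) continuous_const
def T4 : Mp.{u} := mp (fun _ : PUnit.{u + 1} => SS.i.{u}) continuous_const
def T5 : Mp.{u} := mp (fun _ : PUnit.{u + 1} => Two.o.{u}) continuous_const
def T6 : Mp.{u} := mp (fun _ : PEmpty.{u + 1} => PUnit.unit.{u + 1}) continuous_const
def T7 : Mp.{u} := mp (fromS.{u} JJ.o.{u} JJ.i.{u}) (continuous_JJ _)
def T8 : Mp.{u} := mp (fun _ : SS.{u} => PUnit.unit.{u + 1}) continuous_const
def T9 : Mp.{u} := mp (fun _ : Two.{u} => PUnit.unit.{u + 1}) continuous_const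
def T11 : Mp.{u} := mp (fromTwo.{u} SS.o.{u} SS.i.{u}) continuous_bot

theorem lifts_T1 {p : Mp.{u}} :
    Lifts T1 p ↔ ∀ g0 g1 : p.A, Inseparable g0 g1 → p.f g0 = p.f g1 → g0 = g1 := by
  constructor
  · intro h g0 g1 hi he
    obtain ⟨s, -, hs, -⟩ := h (fromJ g0 g1) (fun _ => p.f g0) (continuous_fromJ hi)
      continuous_const (by rintro (_ | _); exacts [rfl, he.symm])
    have h1 := hs JJ.o
    have h2 := hs JJ.i
    exact h1.symm.trans h2
  · intro h a b ha hb hab
    have h1 : a JJ.o = a JJ.i := h _ _ (continuous_JJ_iff.1 ha) (by rw [hab, hab]; rfl)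
    refine ⟨fun _ => a JJ.o, continuous_const, ?_, ?_⟩
    · rintro (_ | _)
      · rfl
      · exact h1
    · intro x
      rw [hab]
      rfl

theorem lifts_T2 {p : Mp.{u}} :
    Lifts T2 p ↔ ∀ (g : p.A) (h1 : p.B), Inseparable (p.f g) h1 →
      ∃ g1, Inseparable g g1 ∧ p.f g1 = h1 := by
  constructor
  · intro h g h1 hi
    obtain ⟨s, hc, hs, hp⟩ := h (fun _ => g) (fromJ (p.f g) h1) continuous_const
      (continuous_fromJ hi) (fun _ => rfl)
    refine ⟨s JJ.i, ?_, hp JJ.i⟩
    have h2 := continuous_JJ_iff.1 hc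
    have h3 : s JJ.o = g := hs PUnit.unit
    rwa [h3] at h2
  · intro h a b ha hb hab
    have hi : Inseparable (p.f (a PUnit.unit)) (b JJ.i) := by
      rw [hab]
      exact continuous_JJ_iff.1 hb
    obtain ⟨g1, hg, hg1⟩ := h _ _ hi
    refine ⟨fromJ (a PUnit.unit) g1, continuous_fromJ hg, fun _ => rfl, ?_⟩
    rintro (_ | _)
    · exact hab PUnit.unit
    · exact hg1

theorem lifts_T3 {p : Mp.{u}} :
    Lifts T3 p ↔ ∀ (g : p.A) (h1 : p.B), h1 ⤳ p.f g → ∃ g1, g1 ⤳ g ∧ p.f g1 = h1 := by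
  constructor
  · intro h g h1 hi
    obtain ⟨s, hc, hs, hp⟩ := h (fun _ => g) (fromS (p.f g) h1) continuous_const
      (continuous_fromS hi) (fun _ => rfl)
    refine ⟨s SS.i, ?_, hp SS.i⟩
    have h2 := continuous_SS_iff.1 hc
    have h3 : s SS.o = g := hs PUnit.unit
    rwa [h3] at h2
  · intro h a b ha hb hab
    have hi : b SS.i ⤳ p.f (a PUnit.unit) := by
      rw [hab]
      exact continuous_SS_iff.1 hb
    obtain ⟨g1, hg, hg1⟩ := h _ _ hi
    refine ⟨fromS (a PUnit.unit) g1, continuous_fromS hg, fun _ => rfl, ?_⟩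
    rintro (_ | _)
    · exact hab PUnit.unit
    · exact hg1

theorem lifts_T4 {p : Mp.{u}} :
    Lifts T4 p ↔ ∀ (g : p.A) (h0 : p.B), p.f g ⤳ h0 → ∃ g0, g ⤳ g0 ∧ p.f g0 = h0 := by
  constructor
  · intro h g h0 hi
    obtain ⟨s, hc, hs, hp⟩ := h (fun _ => g) (fromS h0 (p.f g)) continuous_const
      (continuous_fromS hi) (fun _ => rfl)
    refine ⟨s SS.o, ?_, hp SS.o⟩
    have h2 := continuous_SS_iff.1 hc
    have h3 : s SS.i = g := hs PUnit.unit
    rwa [h3] at h2
  · intro h a b ha hb hab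
    have hi : p.f (a PUnit.unit) ⤳ b SS.o := by
      rw [hab]
      exact continuous_SS_iff.1 hb
    obtain ⟨g1, hg, hg1⟩ := h _ _ hi
    refine ⟨fromS g1 (a PUnit.unit), continuous_fromS hg, fun _ => rfl, ?_⟩
    rintro (_ | _)
    · exact hg1
    · exact hab PUnit.unit

theorem lifts_T6 {p : Mp.{u}} : Lifts T6 p ↔ Function.Surjective p.f := by
  constructor
  · intro h b
    obtain ⟨s, -, -, hp⟩ := h (fun x => x.elim) (fun _ => b) (by fun_prop) continuous_const
      (fun x => x.elim)
    exact ⟨s PUnit.unit, hp PUnit.unit⟩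
  · intro h a b ha hb hab
    obtain ⟨g, hg⟩ := h (b PUnit.unit)
    exact ⟨fun _ => g, continuous_const, fun x => x.elim, fun _ => hg⟩

theorem lifts_T7 {p : Mp.{u}} :
    Lifts T7 p ↔ ∀ g0 g1 : p.A, g1 ⤳ g0 → Inseparable (p.f g0) (p.f g1) →
      Inseparable g0 g1 := by
  constructor
  · intro h g0 g1 hs hi
    obtain ⟨s, hc, hs, -⟩ := h (fromS g0 g1) (fromJ (p.f g0) (p.f g1)) (continuous_fromS hs)
      (continuous_fromJ hi) (by rintro (_ | _) <;> rfl)
    have h1 := continuous_JJ_iff.1 hc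
    have h2 : s JJ.o = g0 := hs SS.o
    have h3 : s JJ.i = g1 := hs SS.i
    rwa [h2, h3] at h1
  · intro h a b ha hb hab
    have e0 : p.f (a SS.o) = b JJ.o := hab SS.o
    have e1 : p.f (a SS.i) = b JJ.i := hab SS.i
    have h1 : Inseparable (a SS.o) (a SS.i) := h _ _ (continuous_SS_iff.1 ha) (by
      rw [e0, e1]
      exact continuous_JJ_iff.1 hb)
    refine ⟨fromJ (a SS.o) (a SS.i), continuous_fromJ h1, ?_, ?_⟩
    · rintro (_ | _) <;> rfl
    · rintro (_ | _)
      · exact e0
      · exact e1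

theorem lifts_T8 {p : Mp.{u}} :
    Lifts T8 p ↔ ∀ g0 g1 : p.A, g1 ⤳ g0 → p.f g0 = p.f g1 → g0 = g1 := by
  constructor
  · intro h g0 g1 hi he
    obtain ⟨s, -, hs, -⟩ := h (fromS g0 g1) (fun _ => p.f g0) (continuous_fromS hi)
      continuous_const (by rintro (_ | _); exacts [rfl, he.symm])
    have h1 := hs SS.o
    have h2 := hs SS.i
    exact h1.symm.trans h2
  · intro h a b ha hb hab
    have h1 : a SS.o = a SS.i := h _ _ (continuous_SS_iff.1 ha) (by rw [hab, hab]; rfl)
    refine ⟨fun _ => a SS.o, continuous_const, ?_, ?_⟩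
    · rintro (_ | _)
      · rfl
      · exact h1
    · intro x
      rw [hab]
      rfl

theorem lifts_T9 {p : Mp.{u}} : Lifts T9 p ↔ Function.Injective p.f := by
  constructor
  · intro h g0 g1 he
    obtain ⟨s, -, hs, -⟩ := h (fromTwo g0 g1) (fun _ => p.f g0) continuous_bot
      continuous_const (by rintro (_ | _); exacts [rfl, he.symm])
    have h1 := hs Two.o
    have h2 := hs Two.i
    exact h1.symm.trans h2
  · intro h a b ha hb hab
    have h1 : a Two.o = a Two.i := h (by rw [hab, hab]; rfl)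
    refine ⟨fun _ => a Two.o, continuous_const, ?_, ?_⟩
    · rintro (_ | _)
      · rfl
      · exact h1
    · intro x
      rw [hab]
      rfl

theorem lifts_T11 {p : Mp.{u}} :
    Lifts T11 p ↔ ∀ g0 g1 : p.A, p.f g1 ⤳ p.f g0 → g1 ⤳ g0 := by
  constructor
  · intro h g0 g1 hs
    obtain ⟨s, hc, hs, -⟩ := h (fromTwo g0 g1) (fromS (p.f g0) (p.f g1)) continuous_bot
      (continuous_fromS hs) (by rintro (_ | _) <;> rfl)
    have h1 := continuous_SS_iff.1 hc
    have h2 : s SS.o = g0 := hs Two.o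
    have h3 : s SS.i = g1 := hs Two.i
    rwa [h2, h3] at h1
  · intro h a b ha hb hab
    have e0 : p.f (a Two.o) = b SS.o := hab Two.o
    have e1 : p.f (a Two.i) = b SS.i := hab Two.i
    have h1 : a Two.i ⤳ a Two.o := h _ _ (by
      rw [e0, e1]
      exact continuous_SS_iff.1 hb)
    refine ⟨fromS (a Two.o) (a Two.i), continuous_fromS h1, ?_, ?_⟩
    · rintro (_ | _) <;> rfl
    · rintro (_ | _)
      · exact e0
      · exact e1

end Pool.Agent.Helper70.LP
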