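import Pool.Agent.Helper70.LP.FinMap5
import Pool.Agent.Helper70.LP.Defs

set_option autoImplicit false

universe u

open CategoryTheory

namespace Pool.Agent.Helper70.LP

/-- from morphisms to bundled maps -/
def toMp {X Y : TopCat.{u}} (f : X ⟶ Y) : Mp.{u} := ⟨X, Y, f, f.hom.continuous⟩

/-- from bundled maps to morphisms -/
def ofMp (m : Mp.{u}) : TopCat.of m.A ⟶ TopCat.of m.B := TopCat.ofHom ⟨m.f, m.cont⟩

/-- the translation of classes -/
def toSet (P : MorphismProperty TopCat.{u}) : Set Mp.{u} := {m | P (ofMp m)}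

theorem mem_toSet {P : MorphismProperty TopCat.{u}} {X Y : TopCat.{u}} (f : X ⟶ Y) :
    toMp f ∈ toSet P ↔ P f := Iff.rfl

theorem toSet_injective : Function.Injective (toSet : MorphismProperty TopCat.{u} → Set Mp.{u}) := by
  intro P Q h
  ext X Y f
  have h1 : toMp f ∈ toSet P ↔ toMp f ∈ toSet Q := by rw [h]
  exact h1

theorem lifting_iff {A B X Y : TopCat.{u}} (i : A ⟶ B) (p : X ⟶ Y) :
    HasLiftingProperty i p ↔ Lifts (toMp i) (toMp p) := by
  constructor
  · intro h a b ha hb hab
    let a' : A ⟶ X := TopCat.ofHom ⟨a, ha⟩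
    let b' : B ⟶ Y := TopCat.ofHom ⟨b, hb⟩
    have sq : CommSq a' i p b' := ⟨by
      ext x
      exact hab x⟩
    have hl := sq.fac_left
    have hr := sq.fac_right
    refine ⟨sq.lift, sq.lift.hom.continuous, ?_, ?_⟩
    · intro x
      exact congrArg (fun g : A ⟶ X => g x) hl
    · intro x
      exact congrArg (fun g : B ⟶ Y => g x) hr
  · intro h
    refine ⟨fun {a b} sq => ?_⟩
    obtain ⟨s, hs, hs1, hs2⟩ := h a b a.hom.continuous b.hom.continuous (by
      intro x
      exact congrArg (fun g : A ⟶ Y => g x) sq.w)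
    exact ⟨⟨TopCat.ofHom ⟨s, hs⟩, by
      ext x
      exact hs1 x, by
      ext x
      exact hs2 x⟩⟩

theorem toSet_llp (P : MorphismProperty TopCat.{u}) : toSet P.llp = l (toSet P) := by
  ext m
  constructor
  · intro h p hp
    exact (lifting_iff (ofMp m) (ofMp p)).1 (h (ofMp p) hp)
  · intro h X Y g hg
    exact (lifting_iff (ofMp m) g).2 (h (toMp g) hg)

theorem toSet_rlp (P : MorphismProperty TopCat.{u}) : toSet P.rlp = r (toSet P) := by
  ext m
  constructor
  · intro h p hp
    exact (lifting_iff (ofMp p) (ofMp m)).1 (h (ofMp p) hp)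
  · intro h X Y g hg
    exact (lifting_iff g (ofMp m)).2 (h (toMp g) hg)

theorem toSet_single {X Y : TopCat.{u}} (f : X ⟶ Y) :
    toSet (MorphismProperty.single f) = {toMp f} := by
  ext m
  constructor
  · intro h
    have h' : MorphismProperty.single f (ofMp m) := h
    obtain ⟨-, h1⟩ := (MorphismProperty.ofHoms_iff _ _).1 h'
    have h2 := congrArg (fun a : Arrow TopCat.{u} => toMp a.hom) h1
    exact h2
  · intro h
    have h' : m = toMp f := h
    rw [h']
    exact MorphismProperty.ofHoms.mk ()

theorem toSet_iter (w : List Bool) (P : MorphismProperty TopCat.{u}) :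
    toSet (iterNeg w P) = w.foldl (fun Q b => if b then l Q else r Q) (toSet P) := by
  induction w generalizing P with
  | nil => rfl
  | cons b w ih =>
    rw [List.foldl_cons]
    change toSet (iterNeg w (neg b P)) = _
    rw [ih]
    cases b with
    | true =>
      change _ = List.foldl _ (l (toSet P)) w
      rw [← toSet_llp]
      rfl
    | false =>
      change _ = List.foldl _ (r (toSet P)) w
      rw [← toSet_rlp]
      rfl

theorem orbit_finite' {X Y : TopCat.{u}} (hX : Finite X) (hY : Finite Y) (f : X ⟶ Y) :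
    (orbit f).Finite := by
  have : Finite (toMp f).A := hX
  have : Finite (toMp f).B := hY
  have h := orbit_finite (toMp f)
  apply Set.Finite.of_finite_image (f := toSet) _ (toSet_injective.injOn)
  apply h.subset
  rintro _ ⟨Q, ⟨w, rfl⟩, rfl⟩
  refine ⟨w, ?_⟩
  rw [toSet_iter, toSet_single]

end Pool.Agent.Helper70.LP
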